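import Mathlib

/-!
Definitions for problem MP_23c7c4_al: very well-covered graphs, weighted edge ideals,
Cohen-Macaulay rings and unmixed ideals.
-/

namespace Pool.Agent.MP_23c7c4_al

open MvPolynomial

universe u

/-- A finite simple graph is very well-covered if it has no isolated vertices, its number of
vertices is even, and every inclusion-maximal independent set has exactly half as many elements
as there are vertices. -/
structure VeryWellCovered {V : Type} [Fintype V] (G : SimpleGraph V) : Prop where
  not_isolated : ∀ v, ∃ w, G.Adj v w
  even_card : Even (Fintype.card V)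
  card_maximal : ∀ s : Finset V,
    Maximal (fun t : Finset V => G.IsIndepSet (t : Set V)) s → 2 * s.card = Fintype.card V

/-- The weighted edge ideal, generated by `(x_i x_j) ^ ω(ij)` for the edges `ij` of the graph. -/
noncomputable def edgeIdeal (K : Type u) [Field K] {V : Type} (G : SimpleGraph V)
    (ω : G.edgeSet → ℕ+) : Ideal (MvPolynomial V K) :=
  Ideal.span {f | ∃ (i j : V) (h : G.Adj i j), f = (X i * X j) ^ (ω ⟨s(i, j), h⟩ : ℕ)}

/-- A (Noetherian) local ring is Cohen-Macaulay if its maximal ideal contains a regular sequence
whose length is the Krull dimension of the ring. -/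
def IsCMLocalRing (A : Type u) [CommRing A] [IsLocalRing A] : Prop :=
  ∃ rs : List A, RingTheory.Sequence.IsRegular A rs ∧
    (∀ r ∈ rs, r ∈ IsLocalRing.maximalIdeal A) ∧ ringKrullDim A = (rs.length : WithBot ℕ∞)

/-- A ring is Cohen-Macaulay if it is Noetherian and its localization at every prime ideal is a
Cohen-Macaulay local ring. -/
def IsCMRing (A : Type u) [CommRing A] : Prop :=
  IsNoetherianRing A ∧ ∀ (p : Ideal A) [p.IsPrime], IsCMLocalRing (Localization.AtPrime p)

/-- An ideal is Cohen-Macaulay if the quotient by it is a Cohen-Macaulay ring. -/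
def IsCMIdeal {R : Type u} [CommRing R] (I : Ideal R) : Prop := IsCMRing (R ⧸ I)

/-- An ideal `I` of `R` is unmixed if all associated primes of `R ⧸ I` have the same height. -/
def IsUnmixed {R : Type u} [CommRing R] (I : Ideal R) : Prop :=
  ∀ p ∈ associatedPrimes R (R ⧸ I), ∀ q ∈ associatedPrimes R (R ⧸ I), p.height = q.height

end Pool.Agent.MP_23c7c4_al
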