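import Mathlib

/-!
Every prime ideal of a polynomial ring in three variables over a field contains a weakly regular
sequence whose length is at least the height of the prime.
-/

namespace Pool.Agent.MP_23c7c4_al

open RingTheory.Sequence

universe u

theorem weaklyRegular_append_monic {A : Type u} [CommRing A] {rs : List A}
    (h : IsWeaklyRegular A rs) {g : Polynomial A} (hg : g.Monic) :
    IsWeaklyRegular (Polynomial A) (rs.map Polynomial.C ++ [g]) := by
  rw [isWeaklyRegular_append_iff, isWeaklyRegular_singleton_iff]
  refine ⟨?_, ?_⟩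
  · have := h.of_flat (S := Polynomial A)
    exact this
  · rw [isSMulRegular_quotient_iff_mem_of_smul_mem]
    intro x hx
    rw [← Ideal.map_ofList, Ideal.smul_eq_mul, Ideal.mul_top] at hx ⊢
    rw [smul_eq_mul] at hx
    rw [Ideal.mem_map_C_iff] at hx ⊢
    have h1 : (g * x).map (Ideal.Quotient.mk (Ideal.ofList rs)) = 0 := by
      ext n
      rw [Polynomial.coeff_map, Polynomial.coeff_zero]
      exact Ideal.Quotient.eq_zero_iff_mem.mpr (hx n)
    rw [Polynomial.map_mul, (hg.map _).mul_right_eq_zero_iff] at h1
    intro n
    rw [← Ideal.Quotient.eq_zero_iff_mem, ← Polynomial.coeff_map, h1, Polynomial.coeff_zero]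

variable {K : Type u} [Field K]

theorem exists_regular_of_monic : ∀ (n : ℕ) (f : Fin n → Polynomial K) (_ : ∀ i, (f i).Monic),
    ∃ rs : List (MvPolynomial (Fin n) K), rs.length = n ∧
      IsWeaklyRegular (MvPolynomial (Fin n) K) rs ∧
      ∀ r ∈ rs, ∃ i, r = Polynomial.aeval (MvPolynomial.X i : MvPolynomial (Fin n) K) (f i) := by
  intro n
  induction n with
  | zero =>
    intro f _
    exact ⟨[], rfl, by simp, by simp⟩
  | succ n ih =>
    intro f hf
    obtain ⟨rs0, hlen, hreg, hmem⟩ := ih (fun i => f i.succ) (fun i => hf i.succ)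
    let e := MvPolynomial.finSuccEquiv K n
    let g : Polynomial (MvPolynomial (Fin n) K) := Polynomial.aeval Polynomial.X (f 0)
    have hg : g = (f 0).map (algebraMap K (MvPolynomial (Fin n) K)) := rfl
    have hgm : g.Monic := by
      rw [hg]
      exact (hf 0).map _
    have h1 := weaklyRegular_append_monic hreg hgm
    refine ⟨(rs0.map Polynomial.C ++ [g]).map e.symm, ?_, ?_, ?_⟩
    · simp [hlen]
    · refine ((e.symm.toAddEquiv).isWeaklyRegular_congr ?_).mp h1
      rw [List.forall₂_map_right_iff, List.forall₂_same]
      intro r _ x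
      exact map_mul e.symm r x
    · intro r hr
      rw [List.mem_map] at hr
      obtain ⟨s, hs, rfl⟩ := hr
      rw [List.mem_append, List.mem_map, List.mem_singleton] at hs
      rcases hs with ⟨t, ht, rfl⟩ | rfl
      · obtain ⟨i, rfl⟩ := hmem t ht
        refine ⟨i.succ, ?_⟩
        have h3 := Polynomial.aeval_algHom_apply e.toAlgHom (MvPolynomial.X i.succ) (f i.succ)
        rw [AlgEquiv.symm_apply_eq]
        have : e.toAlgHom (MvPolynomial.X i.succ) = Polynomial.C (MvPolynomial.X i) :=
          MvPolynomial.finSuccEquiv_X_succ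
        rw [this] at h3
        have h2 := Polynomial.aeval_algHom_apply
          (IsScalarTower.toAlgHom K (MvPolynomial (Fin n) K) (Polynomial (MvPolynomial (Fin n) K)))
          (MvPolynomial.X i) (f i.succ)
        exact h2.symm.trans h3
      · refine ⟨0, ?_⟩
        have h3 := Polynomial.aeval_algHom_apply e.toAlgHom (MvPolynomial.X 0) (f 0)
        rw [AlgEquiv.symm_apply_eq]
        have : e.toAlgHom (MvPolynomial.X 0) = Polynomial.X := MvPolynomial.finSuccEquiv_X_zero
        rw [this] at h3
        exact h3

/-- maximal ideals contain weakly regular sequences of full length -/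
theorem exists_regular_of_isMaximal (n : ℕ) (q : Ideal (MvPolynomial (Fin n) K)) [q.IsMaximal] :
    ∃ rs : List (MvPolynomial (Fin n) K), rs.length = n ∧
      IsWeaklyRegular (MvPolynomial (Fin n) K) rs ∧ ∀ r ∈ rs, r ∈ q := by
  let _ : Field (MvPolynomial (Fin n) K ⧸ q) := Ideal.Quotient.field q
  have hfin : Module.Finite K (MvPolynomial (Fin n) K ⧸ q) :=
    finite_of_finite_type_of_isJacobsonRing K (MvPolynomial (Fin n) K ⧸ q)
  have hint : ∀ i, IsIntegral K (Ideal.Quotient.mk q (MvPolynomial.X i)) := fun i =>
    Algebra.IsIntegral.isIntegral _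
  obtain ⟨rs, hlen, hreg, hmem⟩ := exists_regular_of_monic n
    (fun i => minpoly K (Ideal.Quotient.mk q (MvPolynomial.X i)))
    (fun i => minpoly.monic (hint i))
  refine ⟨rs, hlen, hreg, ?_⟩
  intro r hr
  obtain ⟨i, rfl⟩ := hmem r hr
  rw [← Ideal.Quotient.eq_zero_iff_mem]
  have h1 := Polynomial.aeval_algHom_apply (Ideal.Quotient.mkₐ K q)
    (MvPolynomial.X i) (minpoly K (Ideal.Quotient.mk q (MvPolynomial.X i)))
  have h2 : (Ideal.Quotient.mkₐ K q) (MvPolynomial.X i) = Ideal.Quotient.mk q (MvPolynomial.X i) :=
    rfl
  rw [h2, minpoly.aeval] at h1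
  exact h1.symm

theorem exists_regular_of_isPrime (q : Ideal (MvPolynomial (Fin 3) K)) [hq : q.IsPrime] :
    ∃ rs : List (MvPolynomial (Fin 3) K),
      IsWeaklyRegular (MvPolynomial (Fin 3) K) rs ∧ (∀ r ∈ rs, r ∈ q) ∧
      q.height ≤ (rs.length : ℕ∞) := by
  have hdim : ringKrullDim (MvPolynomial (Fin 3) K) = 3 := by
    rw [MvPolynomial.ringKrullDim_of_isNoetherianRing]
    simp
  by_cases hmax : q.IsMaximal
  · obtain ⟨rs, hlen, hreg, hmem⟩ := exists_regular_of_isMaximal 3 q
    refine ⟨rs, hreg, hmem, ?_⟩
    rw [hlen]
    have := Ideal.height_le_ringKrullDim_of_isPrime (I := q)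
    rw [hdim] at this
    exact WithBot.coe_le_coe.mp this
  · obtain ⟨m, hm, hqm⟩ := Ideal.exists_le_maximal q hq.ne_top
    have hlt : q < m := lt_of_le_of_ne hqm (by rintro rfl; exact hmax hm)
    have h2 : q.height ≤ 2 := by
      have h1 := Ideal.height_add_one_le_of_lt_of_isPrime hlt
      have h3 := Ideal.height_le_ringKrullDim_of_isPrime (I := m)
      rw [hdim] at h3
      have h4 : m.height ≤ 3 := WithBot.coe_le_coe.mp h3
      have h5 : q.height + 1 ≤ 2 + 1 := h1.trans (h4.trans (by norm_num))
      exact (ENat.add_le_add_iff_right (by simp)).mp h5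
    by_cases hbot : q = ⊥
    · subst hbot
      exact ⟨[], by simp, by simp, by simp⟩
    · obtain ⟨f, hfq, hfp⟩ := hq.exists_mem_prime_of_ne_bot hbot
      by_cases hqf : q ≤ Ideal.span {f}
      · have heq : q = Ideal.span {f} := le_antisymm hqf (by rwa [Ideal.span_singleton_le_iff_mem])
        refine ⟨[f], ?_, by simpa using hfq, ?_⟩
        · rw [isWeaklyRegular_singleton_iff]
          rw [isSMulRegular_iff_right_eq_zero_of_smul]
          intro x hx
          rw [smul_eq_mul, mul_eq_zero] at hx
          exact hx.resolve_left hfp.ne_zero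
        · simp only [List.length_singleton, Nat.cast_one]
          apply Ideal.height_le_one_of_isPrincipal_of_mem_minimalPrimes (Ideal.span {f})
          rw [← heq, Ideal.minimalPrimes_eq_subsingleton_self]
          rfl
      · obtain ⟨g, hgq, hgf⟩ := Set.not_subset.mp hqf
        refine ⟨[f, g], ?_, ?_, ?_⟩
        · rw [isWeaklyRegular_cons_iff, isWeaklyRegular_singleton_iff]
          constructor
          · rw [isSMulRegular_iff_right_eq_zero_of_smul]
            intro x hx
            rw [smul_eq_mul, mul_eq_zero] at hx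
            exact hx.resolve_left hfp.ne_zero
          · apply (isSMulRegular_quotient_iff_mem_of_smul_mem _ _).mpr
            intro x hx
            rw [← Submodule.ideal_span_singleton_smul, Ideal.smul_eq_mul, Ideal.mul_top,
              Ideal.mem_span_singleton] at hx ⊢
            rw [smul_eq_mul] at hx
            rcases hfp.dvd_or_dvd hx with h | h
            · exfalso
              apply hgf
              rw [SetLike.mem_coe, Ideal.mem_span_singleton]
              exact h
            · exact h
        · intro r hr
          simp only [List.mem_cons, List.not_mem_nil, or_false] at hr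
          rcases hr with rfl | rfl
          · exact hfq
          · exact hgq
        · simpa using h2

end Pool.Agent.MP_23c7c4_al
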