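import Mathlib
import Pool.Agent.MP_23c7c4_al.Defs
import Pool.Agent.MP_23c7c4_al.RegPoly

/-!
A ring that is finite and flat over a polynomial ring in three variables over a field is
Cohen-Macaulay.
-/

namespace Pool.Agent.MP_23c7c4_al

open RingTheory.Sequence

universe u

theorem height_le_height_comap {S B : Type u} [CommRing S] [CommRing B] [Algebra S B]
    [Algebra.IsIntegral S B] (p : Ideal B) [p.IsPrime] :
    p.height ≤ (p.comap (algebraMap S B)).height := by
  have h1 := PrimeSpectrum.height_eq_orderHeight (⟨p, inferInstance⟩ : PrimeSpectrum B)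
  have h2 := PrimeSpectrum.height_eq_orderHeight
    (PrimeSpectrum.comap (algebraMap S B) (⟨p, inferInstance⟩ : PrimeSpectrum B))
  have hmono : StrictMono (PrimeSpectrum.comap (algebraMap S B)) := by
    intro x y hxy
    exact Ideal.IsIntegral.comap_lt_comap hxy
  have h3 := Order.height_le_height_apply_of_strictMono _ hmono
    (⟨p, inferInstance⟩ : PrimeSpectrum B)
  rw [← h1, ← h2] at h3
  exact h3

variable {K : Type u} [Field K]

theorem isCMRing_of_flat (B : Type u) [CommRing B] [Algebra (MvPolynomial (Fin 3) K) B]
    [Module.Flat (MvPolynomial (Fin 3) K) B] [Module.Finite (MvPolynomial (Fin 3) K) B] :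
    IsCMRing B := by
  have hnoeth : IsNoetherianRing B := IsNoetherianRing.of_finite (MvPolynomial (Fin 3) K) B
  refine ⟨hnoeth, ?_⟩
  intro p hp
  obtain ⟨rs, hreg, hmem, hht⟩ :=
    exists_regular_of_isPrime (p.comap (algebraMap (MvPolynomial (Fin 3) K) B))
  have h1 : IsWeaklyRegular B (rs.map (algebraMap (MvPolynomial (Fin 3) K) B)) := hreg.of_flat
  have hmem1 : ∀ r ∈ rs.map (algebraMap (MvPolynomial (Fin 3) K) B), r ∈ p := by
    intro r hr
    rw [List.mem_map] at hr
    obtain ⟨s, hs, rfl⟩ := hr
    exact hmem s hs
  have h2 := h1.isRegular_of_isLocalization_of_mem (Localization.AtPrime p) p hmem1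
  refine ⟨_, h2, ?_, ?_⟩
  · intro r hr
    rw [List.mem_map] at hr
    obtain ⟨s, hs, rfl⟩ := hr
    exact (IsLocalization.AtPrime.to_map_mem_maximal_iff (Localization.AtPrime p) p s).mpr
      (hmem1 s hs)
  · have h3 := ringKrullDim_add_length_eq_ringKrullDim_of_isRegular _ h2
    have hnt : Nontrivial (Localization.AtPrime p ⧸ Ideal.ofList ((rs.map
        (algebraMap (MvPolynomial (Fin 3) K) B)).map (algebraMap B (Localization.AtPrime p)))) := by
      rw [Ideal.Quotient.nontrivial_iff]
      have := h2.top_ne_smul
      rw [Ideal.smul_eq_mul, Ideal.mul_top] at this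
      exact this.symm
    have h4 := ringKrullDim_nonneg_of_nontrivial (R := Localization.AtPrime p ⧸ Ideal.ofList
      ((rs.map (algebraMap (MvPolynomial (Fin 3) K) B)).map
        (algebraMap B (Localization.AtPrime p))))
    have h5 := IsLocalization.AtPrime.ringKrullDim_eq_height p (Localization.AtPrime p)
    have h6 := (height_le_height_comap (S := MvPolynomial (Fin 3) K) p).trans hht
    apply le_antisymm
    · rw [h5]
      simp only [List.length_map]
      exact WithBot.coe_le_coe.mpr h6
    · rw [← h3]
      exact le_add_of_nonneg_left h4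

end Pool.Agent.MP_23c7c4_al
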