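import Mathlib

/-!
Filtration step for freeness of a quotient ring over a subring.
-/

namespace Pool.Agent.MP_23c7c4_al

universe u

theorem free_step {S R : Type u} [CommRing S] [CommRing R] [Algebra S R] (J J' : Ideal R) (m : R)
    (hJ' : J' = J ⊔ Ideal.span {m})
    (hinj : ∀ c : S, algebraMap S R c * m ∈ J → c = 0)
    (hsurj : ∀ r : R, ∃ c : S, (r - algebraMap S R c) * m ∈ J)
    (hfree : Module.Free S (R ⧸ J')) (hfin : Module.Finite S (R ⧸ J')) :
    Module.Free S (R ⧸ J) ∧ Module.Finite S (R ⧸ J) := by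
  have hle : J ≤ J' := by rw [hJ']; exact le_sup_left
  let f : S →ₗ[S] (R ⧸ J) := LinearMap.toSpanSingleton S (R ⧸ J) (Ideal.Quotient.mk J m)
  let g : (R ⧸ J) →ₗ[S] (R ⧸ J') := (Ideal.Quotient.factorₐ S hle).toLinearMap
  have hf : ∀ c, f c = Ideal.Quotient.mk J (algebraMap S R c * m) := by
    intro c
    change c • (Ideal.Quotient.mk J m) = _
    rw [Algebra.smul_def]
    rfl
  have hg : ∀ x, g (Ideal.Quotient.mk J x) = Ideal.Quotient.mk J' x := by
    intro x
    rfl
  have hfinj : Function.Injective f := by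
    rw [injective_iff_map_eq_zero]
    intro c hc
    rw [hf, Ideal.Quotient.eq_zero_iff_mem] at hc
    exact hinj c hc
  have hgsurj : Function.Surjective g := by
    intro y
    obtain ⟨x, rfl⟩ := Ideal.Quotient.mk_surjective y
    exact ⟨Ideal.Quotient.mk J x, hg x⟩
  have hex : Function.Exact f g := by
    intro y
    obtain ⟨x, rfl⟩ := Ideal.Quotient.mk_surjective y
    rw [hg, Ideal.Quotient.eq_zero_iff_mem, hJ']
    constructor
    · intro hx
      obtain ⟨j, hj, z, hz, hjz⟩ := Submodule.mem_sup.mp hx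
      obtain ⟨r, rfl⟩ := Ideal.mem_span_singleton'.mp hz
      obtain ⟨c, hc⟩ := hsurj r
      refine ⟨c, ?_⟩
      rw [hf, Ideal.Quotient.eq, ← hjz]
      have : algebraMap S R c * m - (j + r * m) = -((r - algebraMap S R c) * m) - j := by ring
      rw [this]
      exact Ideal.sub_mem _ (Ideal.neg_mem_iff _ |>.mpr hc) hj
    · rintro ⟨c, hc⟩
      rw [hf, Ideal.Quotient.eq] at hc
      have : x = algebraMap S R c * m - (algebraMap S R c * m - x) := by ring
      rw [this]
      refine Ideal.sub_mem _ ?_ (Ideal.mem_sup_left hc)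
      exact Ideal.mem_sup_right (Ideal.mul_mem_left _ _ (Ideal.mem_span_singleton_self m))
  obtain ⟨l, hl⟩ := Module.projective_lifting_property g LinearMap.id hgsurj
  let e := (Function.Exact.splitSurjectiveEquiv hex hfinj ⟨l, hl⟩).1
  exact ⟨Module.Free.of_equiv e.symm, Module.Finite.equiv e.symm⟩

end Pool.Agent.MP_23c7c4_al
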