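import Mathlib

/-!
Monomial ideals in six variables and the explicit description of the powers of the ideal
`(x₀x₁, x₀x₂, (x₀x₃)², (x₁x₄)², (x₂x₅)²)`.
-/

namespace Pool.Agent.MP_23c7c4_al

open MvPolynomial

universe u

variable (K : Type u) [Field K]

/-- The ideal of polynomials all of whose exponents are in an up-closed set. -/
noncomputable def monoIdeal (φ : (Fin 6 →₀ ℕ) → Prop) : Ideal (MvPolynomial (Fin 6) K) :=
  Ideal.span ((fun a => monomial a (1 : K)) '' {a | φ a})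

/-- up-closed predicates -/
def UpClosed (φ : (Fin 6 →₀ ℕ) → Prop) : Prop := ∀ a b, a ≤ b → φ a → φ b

variable {K}

theorem mem_monoIdeal {φ : (Fin 6 →₀ ℕ) → Prop} (hφ : UpClosed φ) (f : MvPolynomial (Fin 6) K) :
    f ∈ monoIdeal K φ ↔ ∀ a ∈ f.support, φ a := by
  unfold monoIdeal
  rw [mem_ideal_span_monomial_image]
  constructor
  · intro h a ha
    obtain ⟨b, hb, hba⟩ := h a ha
    exact hφ b a hba hb
  · intro h a ha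
    exact ⟨a, h a ha, le_rfl⟩

/-- The exponent condition describing `I ^ n`. -/
def cond (n : ℕ) (a : Fin 6 →₀ ℕ) : Prop :=
  2 * n ≤ a 0 + a 1 + a 2 ∧
  n ≤ a 0 + a 1 / 2 + a 2 / 2 ∧ n ≤ a 0 + a 4 / 2 + a 2 / 2 ∧
  n ≤ a 0 + a 1 / 2 + a 5 / 2 ∧ n ≤ a 0 + a 4 / 2 + a 5 / 2 ∧
  n ≤ a 1 + a 2 + a 0 / 2 ∧ n ≤ a 1 + a 2 + a 3 / 2

theorem cond_upClosed (n : ℕ) : UpClosed (cond n) := by
  intro a b hab h
  have h0 := hab 0
  have h1 := hab 1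
  have h2 := hab 2
  have h3 := hab 3
  have h4 := hab 4
  have h5 := hab 5
  unfold cond at h ⊢
  omega

theorem cond_add {m n : ℕ} {a b : Fin 6 →₀ ℕ} (ha : cond m a) (hb : cond n b) :
    cond (m + n) (a + b) := by
  unfold cond at *
  simp only [Finsupp.add_apply]
  omega

theorem exists_decomp {n a0 a1 a2 a3 a4 a5 : ℕ}
    (h1 : 2 * n ≤ a0 + a1 + a2)
    (h2 : n ≤ a0 + a1 / 2 + a2 / 2) (h3 : n ≤ a0 + a4 / 2 + a2 / 2)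
    (h4 : n ≤ a0 + a1 / 2 + a5 / 2) (h5 : n ≤ a0 + a4 / 2 + a5 / 2)
    (h6 : n ≤ a1 + a2 + a0 / 2) (h7 : n ≤ a1 + a2 + a3 / 2) :
    ∃ n1 n2 n3 n4 n5 : ℕ, n1 + n2 + n3 + n4 + n5 = n ∧ n1 + n2 + 2 * n5 ≤ a0 ∧
      n1 + 2 * n3 ≤ a1 ∧ n2 + 2 * n4 ≤ a2 ∧ 2 * n5 ≤ a3 ∧ 2 * n3 ≤ a4 ∧ 2 * n4 ≤ a5 := by
  rcases le_or_gt a0 n with h | h
  · -- s = n - a0
    obtain ⟨s, hs⟩ : ∃ s, s = n - a0 := ⟨_, rfl⟩
    obtain ⟨S3, hS3⟩ : ∃ S3, S3 = min (a1 / 2) (a4 / 2) := ⟨_, rfl⟩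
    obtain ⟨S4, hS4⟩ : ∃ S4, S4 = min (a2 / 2) (a5 / 2) := ⟨_, rfl⟩
    obtain ⟨n3, hn3⟩ : ∃ n3, n3 = min s S3 := ⟨_, rfl⟩
    obtain ⟨n1, hn1⟩ : ∃ n1, n1 = min (a1 - 2 * n3) a0 := ⟨_, rfl⟩
    refine ⟨n1, a0 - n1, n3, s - n3, 0, ?_, ?_, ?_, ?_, ?_, ?_, ?_⟩ <;> omega
  · obtain ⟨t, ht⟩ : ∃ t, t = n - a1 - a2 := ⟨_, rfl⟩
    obtain ⟨n1, hn1⟩ : ∃ n1, n1 = min a1 (n - t) := ⟨_, rfl⟩
    refine ⟨n1, n - t - n1, 0, 0, t, ?_, ?_, ?_, ?_, ?_, ?_, ?_⟩ <;> omega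

/-- The ideal of the weighted graph, in explicit form. -/
noncomputable def I0 (K : Type u) [Field K] : Ideal (MvPolynomial (Fin 6) K) :=
  Ideal.span {X 0 * X 1, X 0 * X 2, (X 0 * X 3) ^ 2, (X 1 * X 4) ^ 2, (X 2 * X 5) ^ 2}

theorem prod_dvd_monomial (a : Fin 6 →₀ ℕ) (b0 b1 b2 b3 b4 b5 : ℕ)
    (h0 : b0 ≤ a 0) (h1 : b1 ≤ a 1) (h2 : b2 ≤ a 2) (h3 : b3 ≤ a 3) (h4 : b4 ≤ a 4)
    (h5 : b5 ≤ a 5) :
    (X 0 ^ b0 * X 1 ^ b1 * X 2 ^ b2 * X 3 ^ b3 * X 4 ^ b4 * X 5 ^ b5 :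
      MvPolynomial (Fin 6) K) ∣ monomial a (1 : K) := by
  rw [MvPolynomial.monomial_eq, Finsupp.prod_fintype _ _ (by simp)]
  simp only [map_one, one_mul, Fin.prod_univ_six]
  exact mul_dvd_mul (mul_dvd_mul (mul_dvd_mul (mul_dvd_mul (mul_dvd_mul (pow_dvd_pow _ h0)
    (pow_dvd_pow _ h1)) (pow_dvd_pow _ h2)) (pow_dvd_pow _ h3)) (pow_dvd_pow _ h4))
    (pow_dvd_pow _ h5)

theorem monoIdeal_cond_le (n : ℕ) : monoIdeal K (cond n) ≤ I0 K ^ n := by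
  unfold monoIdeal
  rw [Ideal.span_le]
  rintro _ ⟨a, ha, rfl⟩
  obtain ⟨h1, h2, h3, h4, h5, h6, h7⟩ := ha
  obtain ⟨n1, n2, n3, n4, n5, hn, k0, k1, k2, k3, k4, k5⟩ := exists_decomp h1 h2 h3 h4 h5 h6 h7
  have hd := prod_dvd_monomial (K := K) a _ _ _ _ _ _ k0 k1 k2 k3 k4 k5
  have e : (X 0 ^ (n1 + n2 + 2 * n5) * X 1 ^ (n1 + 2 * n3) * X 2 ^ (n2 + 2 * n4) * X 3 ^ (2 * n5) *
      X 4 ^ (2 * n3) * X 5 ^ (2 * n4) : MvPolynomial (Fin 6) K) =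
      (X 0 * X 1) ^ n1 * (X 0 * X 2) ^ n2 * ((X 1 * X 4) ^ 2) ^ n3 * ((X 2 * X 5) ^ 2) ^ n4 *
      ((X 0 * X 3) ^ 2) ^ n5 := by ring
  rw [e] at hd
  refine Ideal.mem_of_dvd _ hd ?_
  rw [← hn]
  have g1 : (X 0 * X 1 : MvPolynomial (Fin 6) K) ∈ I0 K := Ideal.subset_span (by simp)
  have g2 : (X 0 * X 2 : MvPolynomial (Fin 6) K) ∈ I0 K := Ideal.subset_span (by simp)
  have g3 : ((X 1 * X 4) ^ 2 : MvPolynomial (Fin 6) K) ∈ I0 K := Ideal.subset_span (by simp)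
  have g4 : ((X 2 * X 5) ^ 2 : MvPolynomial (Fin 6) K) ∈ I0 K := Ideal.subset_span (by simp)
  have g5 : ((X 0 * X 3) ^ 2 : MvPolynomial (Fin 6) K) ∈ I0 K := Ideal.subset_span (by simp)
  simp only [pow_add]
  exact Ideal.mul_mem_mul (Ideal.mul_mem_mul (Ideal.mul_mem_mul (Ideal.mul_mem_mul
    (Ideal.pow_mem_pow g1 _) (Ideal.pow_mem_pow g2 _)) (Ideal.pow_mem_pow g3 _))
    (Ideal.pow_mem_pow g4 _)) (Ideal.pow_mem_pow g5 _)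

theorem I0_le : I0 K ≤ monoIdeal K (cond 1) := by
  unfold I0
  rw [Ideal.span_le]
  have key : ∀ b0 b1 b2 b3 b4 b5 : ℕ, 
      cond 1 (Finsupp.equivFunOnFinite.symm ![b0, b1, b2, b3, b4, b5]) →
      (X 0 ^ b0 * X 1 ^ b1 * X 2 ^ b2 * X 3 ^ b3 * X 4 ^ b4 * X 5 ^ b5 :
      MvPolynomial (Fin 6) K) ∈ monoIdeal K (cond 1) := by
    intro b0 b1 b2 b3 b4 b5 h
    apply Ideal.subset_span
    refine ⟨_, h, ?_⟩
    simp only
    rw [MvPolynomial.monomial_eq, Finsupp.prod_fintype _ _ (by simp)]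
    simp [Fin.prod_univ_six]
  intro f hf
  simp only [Set.mem_insert_iff, Set.mem_singleton_iff] at hf
  rcases hf with rfl | rfl | rfl | rfl | rfl
  · have := key 1 1 0 0 0 0 (by simp [cond])
    simpa using this
  · have := key 1 0 1 0 0 0 (by simp [cond])
    simpa using this
  · have := key 2 0 0 2 0 0 (by simp [cond])
    simpa [mul_pow] using this
  · have := key 0 2 0 0 2 0 (by simp [cond])
    simpa [mul_pow] using this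
  · have := key 0 0 2 0 0 2 (by simp [cond])
    simpa [mul_pow] using this

theorem monoIdeal_mul_le (m n : ℕ) :
    monoIdeal K (cond m) * monoIdeal K (cond n) ≤ monoIdeal K (cond (m + n)) := by
  unfold monoIdeal
  rw [Ideal.span_mul_span', Ideal.span_le]
  rintro _ ⟨_, ⟨a, ha, rfl⟩, _, ⟨b, hb, rfl⟩, rfl⟩
  apply Ideal.subset_span
  refine ⟨a + b, cond_add ha hb, ?_⟩
  simp [monomial_mul]

theorem I0_pow (n : ℕ) : I0 K ^ n = monoIdeal K (cond n) := by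
  apply le_antisymm _ (monoIdeal_cond_le n)
  induction n with
  | zero =>
    rw [pow_zero]
    intro f _
    rw [mem_monoIdeal (cond_upClosed 0)]
    intro a _
    simp [cond]
  | succ n ih =>
    rw [pow_succ]
    exact (Ideal.mul_mono ih I0_le).trans (monoIdeal_mul_le n 1)

theorem mem_I0_pow (n : ℕ) (f : MvPolynomial (Fin 6) K) :
    f ∈ I0 K ^ n ↔ ∀ a ∈ f.support, cond n a := by
  rw [I0_pow, mem_monoIdeal (cond_upClosed n)]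

end Pool.Agent.MP_23c7c4_al
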