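import Mathlib
import Pool.Agent.MP_23c7c4_al.Mono
import Pool.Agent.MP_23c7c4_al.FreeStep
import Pool.Agent.MP_23c7c4_al.FlatCM

/-!
A clean filtration showing that the quotient by the square of `I0` is a finite free module over
the polynomial ring in the three elements `x₀ - x₃`, `x₁ - x₄`, `x₂ - x₅`.
-/

namespace Pool.Agent.MP_23c7c4_al

open MvPolynomial

universe u

/-- exponent vectors with six entries -/
structure V6 where
  a0 : ℕ
  a1 : ℕ
  a2 : ℕ
  a3 : ℕ
  a4 : ℕ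
  a5 : ℕ

/-- the exponent attached to a vector -/
noncomputable def V6.toExp (v : V6) : Fin 6 →₀ ℕ :=
  Finsupp.equivFunOnFinite.symm ![v.a0, v.a1, v.a2, v.a3, v.a4, v.a5]

/-- divisibility test -/
def V6.le (g a : V6) : Bool :=
  Nat.ble g.a0 a.a0 && (Nat.ble g.a1 a.a1 && (Nat.ble g.a2 a.a2 && (Nat.ble g.a3 a.a3 &&
    (Nat.ble g.a4 a.a4 && Nat.ble g.a5 a.a5))))

theorem V6.le_iff (g a : V6) : V6.le g a = true ↔ g.a0 ≤ a.a0 ∧ g.a1 ≤ a.a1 ∧ g.a2 ≤ a.a2 ∧
    g.a3 ≤ a.a3 ∧ g.a4 ≤ a.a4 ∧ g.a5 ≤ a.a5 := by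
  simp [V6.le]

/-- up-closed predicate of a list of vectors -/
def phi (G : List V6) (a : Fin 6 →₀ ℕ) : Prop :=
  ∃ g ∈ G, g.a0 ≤ a 0 ∧ g.a1 ≤ a 1 ∧ g.a2 ≤ a 2 ∧ g.a3 ≤ a 3 ∧ g.a4 ≤ a 4 ∧ g.a5 ≤ a 5

theorem phi_upClosed (G : List V6) : UpClosed (phi G) := by
  rintro a b hab ⟨g, hg, h⟩
  have h0 := hab 0
  have h1 := hab 1
  have h2 := hab 2
  have h3 := hab 3
  have h4 := hab 4
  have h5 := hab 5
  exact ⟨g, hg, by omega⟩

/-- first coordinate check -/
def chkA (G : List V6) (m : V6) (f0 f1 f2 : Bool) : Bool :=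
  (if f0 then G.any (fun g => g.le ⟨m.a0 + 1, m.a1, m.a2, m.a3, m.a4, m.a5⟩)
    else G.any (fun g => g.le ⟨m.a0, m.a1, m.a2, m.a3 + 1, m.a4, m.a5⟩)) &&
  ((if f1 then G.any (fun g => g.le ⟨m.a0, m.a1 + 1, m.a2, m.a3, m.a4, m.a5⟩)
    else G.any (fun g => g.le ⟨m.a0, m.a1, m.a2, m.a3, m.a4 + 1, m.a5⟩)) &&
  (if f2 then G.any (fun g => g.le ⟨m.a0, m.a1, m.a2 + 1, m.a3, m.a4, m.a5⟩)
    else G.any (fun g => g.le ⟨m.a0, m.a1, m.a2, m.a3, m.a4, m.a5 + 1⟩)))

/-- second check -/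
def chkB (G : List V6) (m : V6) (f0 f1 f2 : Bool) : Bool :=
  G.all (fun g => (if f0 then Nat.blt m.a0 g.a0 else Nat.blt m.a3 g.a3) ||
    ((if f1 then Nat.blt m.a1 g.a1 else Nat.blt m.a4 g.a4) ||
      (if f2 then Nat.blt m.a2 g.a2 else Nat.blt m.a5 g.a5)))

/-- check of a clean filtration -/
def chk : List V6 → List (V6 × Bool × Bool × Bool) → Bool
  | G, [] => G.any (fun g => g.le ⟨0, 0, 0, 0, 0, 0⟩)
  | G, (m, f0, f1, f2) :: L => (chkA G m f0 f1 f2 && chkB G m f0 f1 f2) && chk (m :: G) L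

/-- the fifteen generators of the square -/
def G0 : List V6 := [
  ⟨2, 2, 0, 0, 0, 0⟩, ⟨2, 1, 1, 0, 0, 0⟩, ⟨1, 3, 0, 0, 2, 0⟩, ⟨1, 1, 2, 0, 0, 2⟩,
  ⟨3, 1, 0, 2, 0, 0⟩, ⟨2, 0, 2, 0, 0, 0⟩, ⟨1, 2, 1, 0, 2, 0⟩, ⟨1, 0, 3, 0, 0, 2⟩,
  ⟨3, 0, 1, 2, 0, 0⟩, ⟨0, 4, 0, 0, 4, 0⟩, ⟨0, 2, 2, 0, 2, 2⟩, ⟨2, 2, 0, 2, 2, 0⟩,
  ⟨0, 0, 4, 0, 0, 4⟩, ⟨2, 0, 2, 2, 0, 2⟩, ⟨4, 0, 0, 4, 0, 0⟩]

/-- the clean filtration -/
def cert : List (V6 × Bool × Bool × Bool) := [
  (⟨1, 0, 2, 0, 0, 2⟩, true, true, true),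
  (⟨1, 2, 0, 0, 2, 0⟩, true, true, true),
  (⟨2, 0, 1, 2, 0, 0⟩, true, true, true),
  (⟨2, 0, 1, 1, 0, 0⟩, false, true, true),
  (⟨2, 0, 1, 0, 0, 0⟩, false, true, true),
  (⟨2, 1, 0, 2, 0, 0⟩, true, true, true),
  (⟨2, 1, 0, 1, 0, 0⟩, false, true, true),
  (⟨2, 1, 0, 0, 0, 0⟩, false, true, true),
  (⟨1, 1, 1, 0, 2, 2⟩, true, true, true),
  (⟨1, 0, 1, 0, 2, 2⟩, true, true, true),
  (⟨1, 0, 1, 0, 1, 2⟩, true, false, true),
  (⟨1, 0, 1, 0, 0, 2⟩, true, false, true),
  (⟨1, 1, 0, 0, 2, 2⟩, true, true, true),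
  (⟨1, 1, 0, 0, 1, 2⟩, true, false, true),
  (⟨1, 1, 0, 0, 0, 2⟩, true, false, true),
  (⟨1, 1, 0, 0, 2, 1⟩, true, true, false),
  (⟨1, 1, 0, 0, 1, 1⟩, true, false, false),
  (⟨1, 1, 0, 0, 0, 1⟩, true, false, false),
  (⟨1, 0, 1, 0, 0, 1⟩, true, true, false),
  (⟨1, 1, 0, 0, 2, 0⟩, true, true, false),
  (⟨1, 1, 0, 0, 1, 0⟩, true, false, false),
  (⟨1, 1, 0, 0, 0, 0⟩, true, false, false),
  (⟨1, 0, 1, 0, 0, 0⟩, true, true, false),
  (⟨3, 0, 0, 4, 0, 0⟩, true, true, true),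
  (⟨2, 0, 0, 4, 0, 0⟩, true, true, true),
  (⟨1, 0, 0, 4, 0, 0⟩, true, true, true),
  (⟨1, 0, 0, 3, 0, 0⟩, false, true, true),
  (⟨1, 0, 0, 2, 0, 0⟩, false, true, true),
  (⟨1, 0, 0, 1, 0, 0⟩, false, true, true),
  (⟨1, 0, 0, 0, 0, 0⟩, false, true, true),
  (⟨0, 1, 3, 0, 2, 4⟩, true, true, true),
  (⟨0, 0, 3, 0, 2, 4⟩, true, true, true),
  (⟨0, 0, 3, 0, 1, 4⟩, true, false, true),
  (⟨0, 0, 3, 0, 0, 4⟩, true, false, true),
  (⟨0, 1, 2, 0, 2, 4⟩, true, true, true),
  (⟨0, 0, 2, 0, 2, 4⟩, true, true, true),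
  (⟨0, 0, 2, 0, 1, 4⟩, true, false, true),
  (⟨0, 0, 2, 0, 0, 4⟩, true, false, true),
  (⟨0, 1, 2, 0, 2, 3⟩, true, true, false),
  (⟨0, 0, 2, 0, 2, 3⟩, true, true, false),
  (⟨0, 0, 2, 0, 1, 3⟩, true, false, false),
  (⟨0, 0, 2, 0, 0, 3⟩, true, false, false),
  (⟨0, 1, 2, 0, 2, 2⟩, true, true, false),
  (⟨0, 0, 2, 0, 2, 2⟩, true, true, false),
  (⟨0, 0, 2, 0, 1, 2⟩, true, false, false),
  (⟨0, 0, 2, 0, 0, 2⟩, true, false, false),
  (⟨0, 3, 1, 0, 4, 2⟩, true, true, true),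
  (⟨0, 2, 1, 0, 4, 2⟩, true, true, true),
  (⟨0, 1, 1, 0, 4, 2⟩, true, true, true),
  (⟨0, 0, 1, 0, 4, 2⟩, true, true, true),
  (⟨0, 0, 1, 0, 3, 2⟩, true, false, true),
  (⟨0, 0, 1, 0, 2, 2⟩, true, false, true),
  (⟨0, 0, 1, 0, 1, 2⟩, true, false, true),
  (⟨0, 0, 1, 0, 0, 2⟩, true, false, true),
  (⟨0, 3, 0, 0, 4, 2⟩, true, true, true),
  (⟨0, 2, 0, 0, 4, 2⟩, true, true, true),
  (⟨0, 1, 0, 0, 4, 2⟩, true, true, true),
  (⟨0, 0, 0, 0, 4, 2⟩, true, true, true),
  (⟨0, 0, 0, 0, 3, 2⟩, true, false, true),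
  (⟨0, 0, 0, 0, 2, 2⟩, true, false, true),
  (⟨0, 0, 0, 0, 1, 2⟩, true, false, true),
  (⟨0, 0, 0, 0, 0, 2⟩, true, false, true),
  (⟨0, 3, 0, 0, 4, 1⟩, true, true, false),
  (⟨0, 2, 0, 0, 4, 1⟩, true, true, false),
  (⟨0, 1, 0, 0, 4, 1⟩, true, true, false),
  (⟨0, 0, 0, 0, 4, 1⟩, true, true, false),
  (⟨0, 0, 0, 0, 3, 1⟩, true, false, false),
  (⟨0, 0, 0, 0, 2, 1⟩, true, false, false),
  (⟨0, 0, 0, 0, 1, 1⟩, true, false, false),
  (⟨0, 0, 0, 0, 0, 1⟩, true, false, false),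
  (⟨0, 3, 0, 0, 4, 0⟩, true, true, false),
  (⟨0, 2, 0, 0, 4, 0⟩, true, true, false),
  (⟨0, 1, 0, 0, 4, 0⟩, true, true, false),
  (⟨0, 0, 0, 0, 4, 0⟩, true, true, false),
  (⟨0, 0, 0, 0, 3, 0⟩, true, false, false),
  (⟨0, 0, 0, 0, 2, 0⟩, true, false, false),
  (⟨0, 0, 0, 0, 1, 0⟩, true, false, false),
  (⟨0, 0, 0, 0, 0, 0⟩, true, false, false)]


theorem chk_cert : chk G0 cert = true := by
  decide +kernel

variable {K : Type u} [Field K]

/-- the map sending the three variables to the differences -/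
noncomputable def theta (K : Type u) [Field K] :
    MvPolynomial (Fin 3) K →ₐ[K] MvPolynomial (Fin 6) K :=
  aeval ![X 0 - X 3, X 1 - X 4, X 2 - X 5]

/-- the retraction attached to a vertex cover -/
noncomputable def sig (K : Type u) [Field K] (f0 f1 f2 : Bool) :
    MvPolynomial (Fin 6) K →ₐ[K] MvPolynomial (Fin 3) K :=
  aeval ![if f0 then 0 else X 0, if f1 then 0 else X 1, if f2 then 0 else X 2,
    if f0 then -X 0 else 0, if f1 then -X 1 else 0, if f2 then -X 2 else 0]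

/-- the killed variables -/
def killed (f0 f1 f2 : Bool) : Fin 6 → Bool := ![f0, f1, f2, !f0, !f1, !f2]

/-- the ideal of killed variables -/
noncomputable def killIdeal (K : Type u) [Field K] (f0 f1 f2 : Bool) :
    Ideal (MvPolynomial (Fin 6) K) :=
  Ideal.span (X '' {j | killed f0 f1 f2 j = true})

theorem mem_killIdeal {f0 f1 f2 : Bool} {x : MvPolynomial (Fin 6) K} :
    x ∈ killIdeal K f0 f1 f2 ↔ ∀ b ∈ x.support, ∃ j, killed f0 f1 f2 j = true ∧ b j ≠ 0 := by
  unfold killIdeal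
  rw [mem_ideal_span_X_image]
  simp

theorem sig_theta (f0 f1 f2 : Bool) (c : MvPolynomial (Fin 3) K) :
    sig K f0 f1 f2 (theta K c) = c := by
  have : (sig K f0 f1 f2).comp (theta K) = AlgHom.id K _ := by
    apply MvPolynomial.algHom_ext
    intro i
    rw [AlgHom.comp_apply, theta, aeval_X, AlgHom.id_apply]
    fin_cases i <;> cases f0 <;> cases f1 <;> cases f2 <;> simp [sig]
  exact DFunLike.congr_fun this c

theorem sig_eq_zero {f0 f1 f2 : Bool} {x : MvPolynomial (Fin 6) K}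
    (hx : x ∈ killIdeal K f0 f1 f2) : sig K f0 f1 f2 x = 0 := by
  have h : killIdeal K f0 f1 f2 ≤ RingHom.ker (sig K f0 f1 f2) := by
    unfold killIdeal
    rw [Ideal.span_le]
    rintro _ ⟨j, hj, rfl⟩
    rw [SetLike.mem_coe, RingHom.mem_ker]
    revert hj
    fin_cases j <;> cases f0 <;> cases f1 <;> cases f2 <;> simp [sig, killed]
  exact h hx

theorem sub_theta_sig_mem (f0 f1 f2 : Bool) (r : MvPolynomial (Fin 6) K) :
    r - theta K (sig K f0 f1 f2 r) ∈ killIdeal K f0 f1 f2 := by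
  have h : (Ideal.Quotient.mkₐ K (killIdeal K f0 f1 f2)) =
      (Ideal.Quotient.mkₐ K (killIdeal K f0 f1 f2)).comp ((theta K).comp (sig K f0 f1 f2)) := by
    apply MvPolynomial.algHom_ext
    intro j
    rw [AlgHom.comp_apply, AlgHom.comp_apply, Ideal.Quotient.mkₐ_eq_mk, Ideal.Quotient.eq]
    have hk : ∀ j, killed f0 f1 f2 j = true →
        (X j : MvPolynomial (Fin 6) K) ∈ killIdeal K f0 f1 f2 :=
      fun j hj => Ideal.subset_span ⟨j, hj, rfl⟩
    fin_cases j
    · cases f0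
      · have := hk 3 (by simp [killed])
        simpa [sig, theta] using this
      · have := hk 0 (by simp [killed])
        simpa [sig, theta] using this
    · cases f1
      · have := hk 4 (by simp [killed])
        simpa [sig, theta] using this
      · have := hk 1 (by simp [killed])
        simpa [sig, theta] using this
    · cases f2
      · have := hk 5 (by simp [killed])
        simpa [sig, theta] using this
      · have := hk 2 (by simp [killed])
        simpa [sig, theta] using this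
    · cases f0
      · have := hk 3 (by simp [killed])
        simpa [sig, theta] using this
      · have := hk 0 (by simp [killed])
        simpa [sig, theta] using this
    · cases f1
      · have := hk 4 (by simp [killed])
        simpa [sig, theta] using this
      · have := hk 1 (by simp [killed])
        simpa [sig, theta] using this
    · cases f2
      · have := hk 5 (by simp [killed])
        simpa [sig, theta] using this
      · have := hk 2 (by simp [killed])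
        simpa [sig, theta] using this
  have h2 := DFunLike.congr_fun h r
  rw [AlgHom.comp_apply, AlgHom.comp_apply, Ideal.Quotient.mkₐ_eq_mk, Ideal.Quotient.eq] at h2
  exact h2

theorem toExp_apply (m : V6) : m.toExp 0 = m.a0 ∧ m.toExp 1 = m.a1 ∧ m.toExp 2 = m.a2 ∧
    m.toExp 3 = m.a3 ∧ m.toExp 4 = m.a4 ∧ m.toExp 5 = m.a5 := by
  refine ⟨rfl, rfl, rfl, rfl, rfl, rfl⟩

theorem colon_le {G : List V6} {m : V6} {f0 f1 f2 : Bool} (h : chkB G m f0 f1 f2 = true)
    {r : MvPolynomial (Fin 6) K} (hr : r * monomial m.toExp 1 ∈ monoIdeal K (phi G)) :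
    r ∈ killIdeal K f0 f1 f2 := by
  rw [mem_monoIdeal (phi_upClosed G)] at hr
  rw [mem_killIdeal]
  intro b hb
  obtain ⟨g, hg, k0, k1, k2, k3, k4, k5⟩ := hr (b + m.toExp) (by
    rw [mem_support_iff, coeff_mul_monomial, mul_one]
    exact mem_support_iff.mp hb)
  obtain ⟨e0, e1, e2, e3, e4, e5⟩ := toExp_apply m
  rw [Finsupp.add_apply] at k0 k1 k2 k3 k4 k5
  rw [e0] at k0
  rw [e1] at k1
  rw [e2] at k2
  rw [e3] at k3
  rw [e4] at k4
  rw [e5] at k5
  unfold chkB at h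
  rw [List.all_eq_true] at h
  have h1 := h g hg
  rw [Bool.or_eq_true, Bool.or_eq_true] at h1
  rcases h1 with h1 | h1 | h1
  · cases f0
    · refine ⟨3, by simp [killed], ?_⟩
      simp at h1
      omega
    · refine ⟨0, by simp [killed], ?_⟩
      simp at h1
      omega
  · cases f1
    · refine ⟨4, by simp [killed], ?_⟩
      simp at h1
      omega
    · refine ⟨1, by simp [killed], ?_⟩
      simp at h1
      omega
  · cases f2
    · refine ⟨5, by simp [killed], ?_⟩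
      simp at h1
      omega
    · refine ⟨2, by simp [killed], ?_⟩
      simp at h1
      omega

theorem kill_mul_mem {G : List V6} {m : V6} {f0 f1 f2 : Bool} (h : chkA G m f0 f1 f2 = true)
    {x : MvPolynomial (Fin 6) K} (hx : x ∈ killIdeal K f0 f1 f2) :
    x * monomial m.toExp 1 ∈ monoIdeal K (phi G) := by
  rw [mem_monoIdeal (phi_upClosed G)]
  rw [mem_killIdeal] at hx
  intro c hc
  rw [mem_support_iff, coeff_mul_monomial'] at hc
  split_ifs at hc with hmc
  · rw [mul_one, ← mem_support_iff] at hc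
    obtain ⟨j, hj, hcj⟩ := hx _ hc
    obtain ⟨e0, e1, e2, e3, e4, e5⟩ := toExp_apply m
    have l0 := hmc 0
    have l1 := hmc 1
    have l2 := hmc 2
    have l3 := hmc 3
    have l4 := hmc 4
    have l5 := hmc 5
    rw [e0] at l0
    rw [e1] at l1
    rw [e2] at l2
    rw [e3] at l3
    rw [e4] at l4
    rw [e5] at l5
    rw [Finsupp.tsub_apply] at hcj
    unfold chkA at h
    rw [Bool.and_eq_true, Bool.and_eq_true] at h
    obtain ⟨h0, h1, h2⟩ := h
    fin_cases j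
    · have : f0 = true := by simpa [killed] using hj
      subst this
      simp only [if_true, List.any_eq_true, V6.le_iff] at h0
      obtain ⟨g, hg, h0⟩ := h0
      refine ⟨g, hg, ?_⟩
      change c 0 - m.toExp 0 ≠ 0 at hcj
      rw [e0] at hcj
      omega
    · have : f1 = true := by simpa [killed] using hj
      subst this
      simp only [if_true, List.any_eq_true, V6.le_iff] at h1
      obtain ⟨g, hg, h1⟩ := h1
      refine ⟨g, hg, ?_⟩
      change c 1 - m.toExp 1 ≠ 0 at hcj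
      rw [e1] at hcj
      omega
    · have : f2 = true := by simpa [killed] using hj
      subst this
      simp only [if_true, List.any_eq_true, V6.le_iff] at h2
      obtain ⟨g, hg, h2⟩ := h2
      refine ⟨g, hg, ?_⟩
      change c 2 - m.toExp 2 ≠ 0 at hcj
      rw [e2] at hcj
      omega
    · have : f0 = false := by simpa [killed] using hj
      subst this
      simp only [Bool.false_eq_true, if_false, List.any_eq_true, V6.le_iff] at h0
      obtain ⟨g, hg, h0⟩ := h0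
      refine ⟨g, hg, ?_⟩
      change c 3 - m.toExp 3 ≠ 0 at hcj
      rw [e3] at hcj
      omega
    · have : f1 = false := by simpa [killed] using hj
      subst this
      simp only [Bool.false_eq_true, if_false, List.any_eq_true, V6.le_iff] at h1
      obtain ⟨g, hg, h1⟩ := h1
      refine ⟨g, hg, ?_⟩
      change c 4 - m.toExp 4 ≠ 0 at hcj
      rw [e4] at hcj
      omega
    · have : f2 = false := by simpa [killed] using hj
      subst this
      simp only [Bool.false_eq_true, if_false, List.any_eq_true, V6.le_iff] at h2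
      obtain ⟨g, hg, h2⟩ := h2
      refine ⟨g, hg, ?_⟩
      change c 5 - m.toExp 5 ≠ 0 at hcj
      rw [e5] at hcj
      omega
  · exact absurd rfl hc

theorem monoIdeal_cons (G : List V6) (m : V6) :
    monoIdeal K (phi (m :: G)) = monoIdeal K (phi G) ⊔ Ideal.span {monomial m.toExp 1} := by
  obtain ⟨e0, e1, e2, e3, e4, e5⟩ := toExp_apply m
  apply le_antisymm
  · conv_lhs => unfold monoIdeal
    rw [Ideal.span_le]
    rintro _ ⟨a, ⟨g, hg, h⟩, rfl⟩
    rw [List.mem_cons] at hg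
    rcases hg with rfl | hg
    · apply Ideal.mem_sup_right
      rw [Ideal.mem_span_singleton]
      have hle : g.toExp ≤ a := by
        intro i
        obtain ⟨h0, h1, h2, h3, h4, h5⟩ := h
        fin_cases i
        · exact h0
        · exact h1
        · exact h2
        · exact h3
        · exact h4
        · exact h5
      refine ⟨monomial (a - g.toExp) 1, ?_⟩
      rw [monomial_mul, one_mul, add_tsub_cancel_of_le hle]
    · apply Ideal.mem_sup_left
      rw [mem_monoIdeal (phi_upClosed G)]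
      intro b hb
      have := MvPolynomial.support_monomial_subset hb
      rw [Finset.mem_singleton] at this
      subst this
      exact ⟨g, hg, h⟩
  · refine sup_le ?_ ?_
    · intro x hx
      rw [mem_monoIdeal (phi_upClosed _)] at hx ⊢
      intro a ha
      obtain ⟨g, hg, h⟩ := hx a ha
      exact ⟨g, List.mem_cons_of_mem _ hg, h⟩
    · rw [Ideal.span_singleton_le_iff_mem, mem_monoIdeal (phi_upClosed _)]
      intro b hb
      have := MvPolynomial.support_monomial_subset hb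
      rw [Finset.mem_singleton] at this
      subst this
      exact ⟨m, List.mem_cons_self, by omega⟩

/-- polynomials in six variables as an algebra over polynomials in three variables -/
@[reducible] noncomputable def thetaAlg (K : Type u) [Field K] :
    Algebra (MvPolynomial (Fin 3) K) (MvPolynomial (Fin 6) K) :=
  (theta K).toRingHom.toAlgebra

attribute [local instance] thetaAlg

theorem chk_sound : ∀ (L : List (V6 × Bool × Bool × Bool)) (G : List V6), chk G L = true →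
    Module.Free (MvPolynomial (Fin 3) K) (MvPolynomial (Fin 6) K ⧸ monoIdeal K (phi G)) ∧
    Module.Finite (MvPolynomial (Fin 3) K) (MvPolynomial (Fin 6) K ⧸ monoIdeal K (phi G)) := by
  intro L
  induction L with
  | nil =>
    intro G h
    have htop : monoIdeal K (phi G) = ⊤ := by
      rw [Ideal.eq_top_iff_one, mem_monoIdeal (phi_upClosed G)]
      unfold chk at h
      rw [List.any_eq_true] at h
      obtain ⟨g, hg, h⟩ := h
      rw [V6.le_iff] at h
      intro a _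
      simp only at h
      exact ⟨g, hg, by omega⟩
    have : Subsingleton (MvPolynomial (Fin 6) K ⧸ monoIdeal K (phi G)) := by
      rw [htop]
      exact Ideal.Quotient.subsingleton_iff.mpr rfl
    exact ⟨inferInstance, inferInstance⟩
  | cons a L ih =>
    intro G h
    obtain ⟨m, f0, f1, f2⟩ := a
    unfold chk at h
    rw [Bool.and_eq_true, Bool.and_eq_true] at h
    obtain ⟨⟨hA, hB⟩, hL⟩ := h
    obtain ⟨h1, h2⟩ := ih (m :: G) hL
    refine free_step (monoIdeal K (phi G)) (monoIdeal K (phi (m :: G))) (monomial m.toExp 1)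
      (monoIdeal_cons G m) ?_ ?_ h1 h2
    · intro c hc
      have h3 := sig_eq_zero (colon_le hB hc)
      rw [← sig_theta f0 f1 f2 c]
      exact h3
    · intro r
      exact ⟨sig K f0 f1 f2 r, kill_mul_mem hA (sub_theta_sig_mem f0 f1 f2 r)⟩

theorem combos_aux : ∀ n1 n2 n3 n4 n5 : Fin 3, n1.val + n2.val + n3.val + n4.val + n5.val = 2 →
    ∃ g ∈ G0, g.a0 = n1.val + n2.val + 2 * n5.val ∧ g.a1 = n1.val + 2 * n3.val ∧
      g.a2 = n2.val + 2 * n4.val ∧ g.a3 = 2 * n5.val ∧ g.a4 = 2 * n3.val ∧ g.a5 = 2 * n4.val := by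
  decide +kernel

theorem phi_G0_iff (a : Fin 6 →₀ ℕ) : phi G0 a ↔ cond 2 a := by
  constructor
  · rintro ⟨g, hg, h⟩
    unfold cond
    simp only [G0, List.mem_cons, List.not_mem_nil, or_false] at hg
    rcases hg with rfl | rfl | rfl | rfl | rfl | rfl | rfl | rfl | rfl | rfl | rfl | rfl | rfl |
      rfl | rfl <;> simp only at h <;> omega
  · rintro ⟨h1, h2, h3, h4, h5, h6, h7⟩
    obtain ⟨n1, n2, n3, n4, n5, hn, k⟩ := exists_decomp h1 h2 h3 h4 h5 h6 h7
    obtain ⟨g, hg, h⟩ := combos_aux ⟨n1, by omega⟩ ⟨n2, by omega⟩ ⟨n3, by omega⟩ ⟨n4, by omega⟩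
      ⟨n5, by omega⟩ hn
    simp only at h
    exact ⟨g, hg, by omega⟩

theorem I0_sq_cm : IsCMIdeal (I0 K ^ 2) := by
  have h : I0 K ^ 2 = monoIdeal K (phi G0) := by
    rw [I0_pow]
    unfold monoIdeal
    congr 2
    ext a
    exact (phi_G0_iff a).symm
  rw [h]
  obtain ⟨h1, h2⟩ := chk_sound (K := K) cert G0 chk_cert
  exact isCMRing_of_flat (K := K) _

end Pool.Agent.MP_23c7c4_al
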