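import Mathlib
import Pool.Agent.MP_23c7c4_al.Defs
import Pool.Agent.MP_23c7c4_al.Mono

/-!
The graph of the counterexample and its weighted edge ideal.
-/

namespace Pool.Agent.MP_23c7c4_al

open MvPolynomial

universe u

/-- the tree with edges 01, 02, 03, 14, 25 -/
def exG : SimpleGraph (Fin 6) :=
  SimpleGraph.fromEdgeSet {s(0, 1), s(0, 2), s(0, 3), s(1, 4), s(2, 5)}

/-- the weights 1, 1, 2, 2, 2 -/
noncomputable def exω : exG.edgeSet → ℕ+ := by
  classical
  exact fun e => if e.1 = s(0, 1) ∨ e.1 = s(0, 2) then 1 else 2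

/-- Boolean adjacency -/
def adjB (i j : Fin 6) : Bool :=
  decide ((i, j) ∈ [((0 : Fin 6), (1 : Fin 6)), (1, 0), (0, 2), (2, 0), (0, 3), (3, 0), (1, 4),
    (4, 1), (2, 5), (5, 2)])

theorem exG_adj (i j : Fin 6) : exG.Adj i j ↔ adjB i j = true := by
  unfold exG
  rw [SimpleGraph.fromEdgeSet_adj]
  simp only [Set.mem_insert_iff, Set.mem_singleton_iff]
  revert i j
  decide

theorem exG_vwc : VeryWellCovered exG := by
  refine ⟨?_, ?_, ?_⟩
  · intro v
    have h : ∀ v : Fin 6, ∃ w, adjB v w = true := by decide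
    obtain ⟨w, hw⟩ := h v
    exact ⟨w, (exG_adj v w).mpr hw⟩
  · decide
  · intro s hs
    have key : ∀ s : Finset (Fin 6), (∀ u ∈ s, ∀ v ∈ s, adjB u v = false) →
        (∀ v, v ∉ s → ∃ u ∈ s, adjB u v = true) → s.card = 3 := by
      decide +kernel
    have h3 : s.card = 3 := by
      apply key
      · intro u hu v hv
        by_contra h
        rw [Bool.not_eq_false, ← exG_adj] at h
        exact hs.prop hu hv h.ne h
      · intro v hv
        by_contra hcon
        push Not at hcon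
        have hind : exG.IsIndepSet ((insert v s : Finset (Fin 6)) : Set (Fin 6)) := by
          intro a ha b hb hab h
          rw [Finset.mem_coe, Finset.mem_insert] at ha hb
          rcases ha with rfl | ha <;> rcases hb with rfl | hb
          · exact hab rfl
          · exact hcon b hb ((exG_adj _ _).mp h.symm)
          · exact hcon a ha ((exG_adj _ _).mp h)
          · exact hs.prop ha hb hab h
        have := hs.le_of_ge hind (Finset.subset_insert v s)
        exact hv (this (Finset.mem_insert_self v s))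
    rw [h3]
    rfl

theorem edgeIdeal_exG (K : Type u) [Field K] : edgeIdeal K exG exω = I0 K := by
  have hω1 : ∀ h : s((0 : Fin 6), 1) ∈ exG.edgeSet, exω ⟨s(0, 1), h⟩ = 1 := by
    intro h
    simp [exω]
  have hω2 : ∀ h : s((0 : Fin 6), 2) ∈ exG.edgeSet, exω ⟨s(0, 2), h⟩ = 1 := by
    intro h
    simp [exω]
  have hω3 : ∀ h : s((0 : Fin 6), 3) ∈ exG.edgeSet, exω ⟨s(0, 3), h⟩ = 2 := by
    intro h
    simp [exω]
  have hω4 : ∀ h : s((1 : Fin 6), 4) ∈ exG.edgeSet, exω ⟨s(1, 4), h⟩ = 2 := by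
    intro h
    simp [exω]
  have hω5 : ∀ h : s((2 : Fin 6), 5) ∈ exG.edgeSet, exω ⟨s(2, 5), h⟩ = 2 := by
    intro h
    simp [exω]
  unfold edgeIdeal I0
  apply le_antisymm
  · rw [Ideal.span_le]
    rintro f ⟨i, j, h, rfl⟩
    have h1 : ∃ i' j', ((i = i' ∧ j = j') ∨ (i = j' ∧ j = i')) ∧
        (i', j') ∈ [((0 : Fin 6), (1 : Fin 6)), (0, 2), (0, 3), (1, 4), (2, 5)] := by
      rw [exG_adj] at h
      revert i j
      decide
    obtain ⟨i', j', hij, h2⟩ := h1
    have h3 : (⟨s(i, j), h⟩ : exG.edgeSet) = ⟨s(i', j'), by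
        have : s(i, j) = s(i', j') := by
          rcases hij with ⟨rfl, rfl⟩ | ⟨rfl, rfl⟩
          · rfl
          · exact Sym2.eq_swap
        rw [← this]; exact h⟩ := by
      apply Subtype.ext
      rcases hij with ⟨rfl, rfl⟩ | ⟨rfl, rfl⟩
      · rfl
      · exact Sym2.eq_swap
    have h4 : (X i * X j : MvPolynomial (Fin 6) K) = X i' * X j' := by
      rcases hij with ⟨rfl, rfl⟩ | ⟨rfl, rfl⟩
      · rfl
      · exact mul_comm _ _
    rw [h3, h4]
    apply Ideal.subset_span
    simp only [List.mem_cons, Prod.mk.injEq, List.not_mem_nil, or_false] at h2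
    rcases h2 with ⟨rfl, rfl⟩ | ⟨rfl, rfl⟩ | ⟨rfl, rfl⟩ | ⟨rfl, rfl⟩ | ⟨rfl, rfl⟩
    · rw [hω1]; simp
    · rw [hω2]; simp
    · rw [hω3]; simp
    · rw [hω4]; simp
    · rw [hω5]; simp
  · rw [Ideal.span_le]
    rintro f (rfl | rfl | rfl | rfl | rfl)
    · apply Ideal.subset_span
      have h : exG.Adj 0 1 := (exG_adj _ _).mpr (by decide)
      refine ⟨0, 1, h, ?_⟩
      rw [hω1 h]; simp
    · apply Ideal.subset_span
      have h : exG.Adj 0 2 := (exG_adj _ _).mpr (by decide)
      refine ⟨0, 2, h, ?_⟩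
      rw [hω2 h]; simp
    · apply Ideal.subset_span
      have h : exG.Adj 0 3 := (exG_adj _ _).mpr (by decide)
      refine ⟨0, 3, h, ?_⟩
      rw [hω3 h]; simp
    · apply Ideal.subset_span
      have h : exG.Adj 1 4 := (exG_adj _ _).mpr (by decide)
      refine ⟨1, 4, h, ?_⟩
      rw [hω4 h]; simp
    · apply Ideal.subset_span
      have h : exG.Adj 2 5 := (exG_adj _ _).mpr (by decide)
      refine ⟨2, 5, h, ?_⟩
      rw [hω5 h]; simp

end Pool.Agent.MP_23c7c4_al
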