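import Mathlib
import Pool.Agent.MP_23c7c4_al.Mono

/-!
Primary monomial ideals, primes generated by variables, unmixedness of the powers.
-/

namespace Pool.Agent.MP_23c7c4_al

open MvPolynomial

universe u

variable {K : Type u} [Field K]

/-- the `T`-degree of an exponent -/
def degT (T : Finset (Fin 6)) (a : Fin 6 →₀ ℕ) : ℕ := ∑ i ∈ T, a i

/-- multiply the variables in `T` by a new variable -/
noncomputable def psi (T : Finset (Fin 6)) :
    MvPolynomial (Fin 6) K →ₐ[K] Polynomial (MvPolynomial (Fin 6) K) :=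
  aeval (fun i => if i ∈ T then Polynomial.C (X i) * Polynomial.X else Polynomial.C (X i))

theorem psi_monomial (T : Finset (Fin 6)) (a : Fin 6 →₀ ℕ) (r : K) :
    psi T (monomial a r) = Polynomial.C (monomial a r) * Polynomial.X ^ degT T a := by
  unfold psi
  rw [aeval_monomial, Finsupp.prod_fintype _ _ (by simp)]
  have h1 : (algebraMap K (Polynomial (MvPolynomial (Fin 6) K))) r =
      Polynomial.C (C r) := rfl
  rw [h1]
  have h2 : ∀ i : Fin 6, (if i ∈ T then Polynomial.C (X i) * Polynomial.X else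
      Polynomial.C (X i) : Polynomial (MvPolynomial (Fin 6) K)) ^ a i =
      Polynomial.C (X i ^ a i) * Polynomial.X ^ (if i ∈ T then a i else 0) := by
    intro i
    split_ifs <;> simp [mul_pow]
  rw [Finset.prod_congr rfl (fun i _ => h2 i), Finset.prod_mul_distrib, Finset.prod_pow_eq_pow_sum]
  have h3 : ∑ i : Fin 6, (if i ∈ T then a i else 0) = degT T a := by
    unfold degT
    rw [Finset.sum_ite_mem]
    simp
  rw [h3, ← mul_assoc, ← map_prod, ← map_mul]
  congr 2
  rw [MvPolynomial.monomial_eq, Finsupp.prod_fintype _ _ (by simp)]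

theorem coeff_psi (T : Finset (Fin 6)) (h : MvPolynomial (Fin 6) K) (d : ℕ) (c : Fin 6 →₀ ℕ) :
    coeff c ((psi T h).coeff d) = if degT T c = d then coeff c h else 0 := by
  induction h using MvPolynomial.induction_on' with
  | monomial a r =>
    rw [psi_monomial, Polynomial.coeff_C_mul, Polynomial.coeff_X_pow]
    by_cases hac : a = c
    · subst hac
      by_cases hd : degT T a = d
      · simp [hd]
      · simp [hd, Ne.symm hd]
    · by_cases hd : degT T c = d
      · simp only [hd, if_true]
        rw [coeff_monomial, if_neg hac]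
        split_ifs
        · rw [mul_one, coeff_monomial, if_neg hac]
        · simp
      · simp only [hd, if_false]
        split_ifs
        · rw [mul_one, coeff_monomial, if_neg hac]
        · simp
  | add p q hp hq =>
    rw [map_add, Polynomial.coeff_add, coeff_add, hp, hq, coeff_add]
    split_ifs <;> simp

/-- a predicate that depends only on the coordinates in `T` -/
def DependsOn (T : Finset (Fin 6)) (φ : (Fin 6 →₀ ℕ) → Prop) : Prop :=
  ∀ a b, (∀ i ∈ T, a i = b i) → φ a → φ b

theorem primary_aux (T : Finset (Fin 6)) (φ : (Fin 6 →₀ ℕ) → Prop) (hφ : UpClosed φ)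
    (hT : DependsOn T φ) (f g : MvPolynomial (Fin 6) K)
    (hf : ¬ ∀ a ∈ f.support, φ a) (hg : ∃ b ∈ g.support, ∀ i ∈ T, b i = 0) :
    ¬ ∀ a ∈ (g * f).support, φ a := by
  classical
  intro hgf
  rw [← mem_monoIdeal hφ] at hf hgf
  -- split f
  obtain ⟨f1, f2, hf12, hf1, hf2⟩ : ∃ f1 f2 : MvPolynomial (Fin 6) K, f = f1 + f2 ∧
      f1 ∈ monoIdeal K φ ∧ ∀ a ∈ f2.support, ¬ φ a := by
    refine ⟨∑ a ∈ f.support with φ a, monomial a (coeff a f),
      ∑ a ∈ f.support with ¬ φ a, monomial a (coeff a f), ?_, ?_, ?_⟩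
    · rw [Finset.sum_filter_add_sum_filter_not]
      exact f.as_sum
    · refine Ideal.sum_mem _ fun a ha => ?_
      rw [mem_monoIdeal hφ]
      intro b hb
      have := MvPolynomial.support_monomial_subset hb
      rw [Finset.mem_singleton] at this
      rw [this]
      exact (Finset.mem_filter.mp ha).2
    · intro b hb hφb
      rw [mem_support_iff, coeff_sum] at hb
      apply hb
      refine Finset.sum_eq_zero fun a ha => ?_
      rw [coeff_monomial, if_neg]
      rintro rfl
      exact (Finset.mem_filter.mp ha).2 hφb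
  have hf2ne : f2 ≠ 0 := by
    rintro rfl
    apply hf
    rw [hf12, add_zero]
    exact hf1
  have hgf2 : g * f2 ∈ monoIdeal K φ := by
    have : g * f2 = g * f - g * f1 := by rw [hf12]; ring
    rw [this]
    exact Ideal.sub_mem _ hgf (Ideal.mul_mem_left _ _ hf1)
  rw [mem_monoIdeal hφ] at hgf2
  set F := psi T f2 with hF
  set G := psi T g with hG
  have hFne : F ≠ 0 := by
    intro h0
    apply hf2ne
    ext c
    have := coeff_psi T f2 (degT T c) c
    rw [← hF, h0] at this
    simpa using this.symm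
  have hG0 : G.coeff 0 ≠ 0 := by
    obtain ⟨b, hb, hbT⟩ := hg
    intro h0
    have := coeff_psi T g 0 b
    rw [← hG, h0, if_pos (by unfold degT; exact Finset.sum_eq_zero hbT)] at this
    rw [mem_support_iff] at hb
    apply hb
    simpa using this.symm
  set d := F.natTrailingDegree with hd
  have hFd : F.coeff d ≠ 0 := by
    have := Polynomial.trailingCoeff_nonzero_iff_nonzero.mpr hFne
    exact this
  have hcoef : (G * F).coeff d = G.coeff 0 * F.coeff d := by
    rw [Polynomial.coeff_mul]
    rw [Finset.sum_eq_single (0, d)]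
    · rintro ⟨i, j⟩ hij hne
      replace hij : i + j = d := Finset.HasAntidiagonal.mem_antidiagonal.mp hij
      have hj : j < d := by
        rcases Nat.eq_zero_or_pos i with h | h
        · exfalso
          apply hne
          rw [h] at hij ⊢
          rw [zero_add] at hij
          rw [hij]
        · omega
      have : F.coeff j = 0 := Polynomial.coeff_eq_zero_of_lt_natTrailingDegree hj
      simp [this]
    · intro h
      exfalso
      apply h
      simp
  have hne : G.coeff 0 * F.coeff d ≠ 0 := mul_ne_zero hG0 hFd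
  obtain ⟨c, hc⟩ : ∃ c, coeff c (G.coeff 0 * F.coeff d) ≠ 0 := by
    by_contra hcon
    push Not at hcon
    apply hne
    ext c
    simpa using hcon c
  have hc1 : c ∈ (g * f2).support := by
    rw [mem_support_iff]
    have h1 := coeff_psi T (g * f2) d c
    rw [map_mul, ← hF, ← hG, hcoef] at h1
    intro h0
    rw [h0] at h1
    apply hc
    rw [h1]
    simp
  have hc2 := hgf2 c hc1
  -- decompose c
  have hc3 : c ∈ (G.coeff 0 * F.coeff d).support := by
    rw [mem_support_iff]; exact hc
  have hc4 := MvPolynomial.support_mul _ _ hc3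
  rw [Finset.mem_add] at hc4
  obtain ⟨b, hb, a, ha, hba⟩ := hc4
  rw [mem_support_iff, hG, coeff_psi] at hb
  rw [mem_support_iff, hF, coeff_psi] at ha
  have hb0 : degT T b = 0 := by
    by_contra h
    rw [if_neg h] at hb
    exact hb rfl
  have ha0 : coeff a f2 ≠ 0 := by
    by_cases h : degT T a = d
    · rwa [if_pos h] at ha
    · rw [if_neg h] at ha
      exact absurd rfl ha
  have hbT : ∀ i ∈ T, b i = 0 := by
    unfold degT at hb0
    exact Finset.sum_eq_zero_iff.mp hb0
  refine hf2 a (by rwa [mem_support_iff]) (hT c a ?_ hc2)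
  intro i hi
  rw [← hba, Finsupp.add_apply, hbT i hi, zero_add]

/-- The prime ideal generated by the variables in `T`. -/
noncomputable def PT (K : Type u) [Field K] (T : Finset (Fin 6)) : Ideal (MvPolynomial (Fin 6) K) :=
  Ideal.span (X '' (T : Set (Fin 6)))

theorem mem_PT {T : Finset (Fin 6)} {f : MvPolynomial (Fin 6) K} :
    f ∈ PT K T ↔ ∀ a ∈ f.support, ∃ i ∈ T, a i ≠ 0 := by
  unfold PT
  rw [mem_ideal_span_X_image]
  simp

theorem not_mem_PT {T : Finset (Fin 6)} {f : MvPolynomial (Fin 6) K} :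
    f ∉ PT K T ↔ ∃ a ∈ f.support, ∀ i ∈ T, a i = 0 := by
  rw [mem_PT]
  push Not
  rfl

theorem PT_isPrime (T : Finset (Fin 6)) : (PT K T).IsPrime := by
  constructor
  · rw [Ideal.ne_top_iff_one]
    rw [not_mem_PT]
    refine ⟨0, ?_, ?_⟩
    · rw [mem_support_iff]
      simp
    · simp
  · intro f g hfg
    by_contra hcon
    push Not at hcon
    obtain ⟨hf, hg⟩ := hcon
    have h1 := not_mem_PT.mp hf
    rw [mem_PT] at hg hfg
    exact primary_aux T (fun a => ∃ i ∈ T, a i ≠ 0) (by
      rintro a b hab ⟨i, hi, hai⟩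
      refine ⟨i, hi, ?_⟩
      have := hab i
      omega) (by
      rintro a b hab ⟨i, hi, hai⟩
      exact ⟨i, hi, by rw [← hab i hi]; exact hai⟩) g f hg h1 hfg

instance PT_isPrime' (T : Finset (Fin 6)) : (PT K T).IsPrime := PT_isPrime T

theorem X_mem_PT {T : Finset (Fin 6)} {i : Fin 6} (hi : i ∈ T) :
    (X i : MvPolynomial (Fin 6) K) ∈ PT K T :=
  Ideal.subset_span ⟨i, hi, rfl⟩

theorem PT_le_iff {T : Finset (Fin 6)} {J : Ideal (MvPolynomial (Fin 6) K)} :
    PT K T ≤ J ↔ ∀ i ∈ T, (X i : MvPolynomial (Fin 6) K) ∈ J := by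
  unfold PT
  rw [Ideal.span_le]
  constructor
  · intro h i hi
    exact h ⟨i, hi, rfl⟩
  · rintro h _ ⟨i, hi, rfl⟩
    exact h i hi

theorem PT_height_perm (T : Finset (Fin 6)) (e : Equiv.Perm (Fin 6)) :
    (PT K (T.map e.toEmbedding)).height = (PT K T).height := by
  have h := RingEquiv.height_map (MvPolynomial.renameEquiv K e).toRingEquiv (PT K T)
  rw [← h]
  congr 1
  unfold PT
  rw [Ideal.map_span]
  congr 1
  ext f
  constructor
  · rintro ⟨i, hi, rfl⟩
    rw [Finset.mem_coe, Finset.mem_map] at hi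
    obtain ⟨j, hj, rfl⟩ := hi
    exact ⟨X j, ⟨j, hj, rfl⟩, by simp⟩
  · rintro ⟨_, ⟨j, hj, rfl⟩, rfl⟩
    refine ⟨e j, ?_, by simp⟩
    rw [Finset.mem_coe, Finset.mem_map]
    exact ⟨j, hj, rfl⟩

/-- the minimal vertex covers -/
def covers : List (Finset (Fin 6)) := [{0, 1, 2}, {0, 4, 2}, {0, 1, 5}, {0, 4, 5}, {3, 1, 2}]

theorem PT_height_covers : ∀ T ∈ covers, (PT K T).height = (PT K {0, 1, 2}).height := by
  intro T hT
  simp only [covers, List.mem_cons, List.not_mem_nil, or_false] at hT
  rcases hT with rfl | rfl | rfl | rfl | rfl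
  · rfl
  · have := PT_height_perm (K := K) {0, 1, 2} (Equiv.swap 1 4)
    rw [← this]; congr 1
  · have := PT_height_perm (K := K) {0, 1, 2} (Equiv.swap 2 5)
    rw [← this]; congr 1
  · have := PT_height_perm (K := K) {0, 1, 2} ((Equiv.swap 2 5) * (Equiv.swap 1 4))
    rw [← this]; congr 1
  · have := PT_height_perm (K := K) {0, 1, 2} (Equiv.swap 0 3)
    rw [← this]; congr 1

end Pool.Agent.MP_23c7c4_al
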