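import Mathlib
import Pool.Agent.MP_23c7c4_al.Defs
import Pool.Agent.MP_23c7c4_al.Prim

/-!
All powers of the ideal `I0` are unmixed.
-/

namespace Pool.Agent.MP_23c7c4_al

open MvPolynomial

universe u

variable {K : Type u} [Field K]

theorem exists_cover_of_not_cond {n : ℕ} {f : MvPolynomial (Fin 6) K} (hf : f ∉ I0 K ^ n) :
    ∃ T ∈ covers, ∀ g : MvPolynomial (Fin 6) K, g * f ∈ I0 K ^ n → g ∈ PT K T := by
  by_contra hcon
  push Not at hcon
  rw [mem_I0_pow] at hf
  have key : ∀ (T : Finset (Fin 6)) (φ : (Fin 6 →₀ ℕ) → Prop), T ∈ covers → UpClosed φ →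
      DependsOn T φ → (∀ a, cond n a → φ a) → ∀ a ∈ f.support, φ a := by
    intro T φ hT hφ hdep hc
    by_contra h
    obtain ⟨g, hgf, hg⟩ := hcon T hT
    rw [mem_I0_pow] at hgf
    exact primary_aux T φ hφ hdep f g h (not_mem_PT.mp hg) (fun a ha => hc a (hgf a ha))
  apply hf
  intro a ha
  refine ⟨?_, ?_, ?_, ?_, ?_, ?_, ?_⟩
  · refine key {0, 1, 2} (fun a => 2 * n ≤ a 0 + a 1 + a 2) (by simp [covers]) ?_ ?_ ?_ a ha
    · intro a b hab h
      have h0 := hab 0
      have h1 := hab 1
      have h2 := hab 2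
      omega
    · intro a b hab h
      have h0 := hab 0 (by simp)
      have h1 := hab 1 (by simp)
      have h2 := hab 2 (by simp)
      omega
    · intro a h
      exact h.1
  · refine key {0, 1, 2} (fun a => n ≤ a 0 + a 1 / 2 + a 2 / 2) (by simp [covers]) ?_ ?_ ?_ a ha
    · intro a b hab h
      have h0 := hab 0
      have h1 := hab 1
      have h2 := hab 2
      omega
    · intro a b hab h
      have h0 := hab 0 (by simp)
      have h1 := hab 1 (by simp)
      have h2 := hab 2 (by simp)
      omega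
    · intro a h
      exact h.2.1
  · refine key {0, 4, 2} (fun a => n ≤ a 0 + a 4 / 2 + a 2 / 2) (by simp [covers]) ?_ ?_ ?_ a ha
    · intro a b hab h
      have h0 := hab 0
      have h1 := hab 4
      have h2 := hab 2
      omega
    · intro a b hab h
      have h0 := hab 0 (by simp)
      have h1 := hab 4 (by simp)
      have h2 := hab 2 (by simp)
      omega
    · intro a h
      exact h.2.2.1
  · refine key {0, 1, 5} (fun a => n ≤ a 0 + a 1 / 2 + a 5 / 2) (by simp [covers]) ?_ ?_ ?_ a ha
    · intro a b hab h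
      have h0 := hab 0
      have h1 := hab 1
      have h2 := hab 5
      omega
    · intro a b hab h
      have h0 := hab 0 (by simp)
      have h1 := hab 1 (by simp)
      have h2 := hab 5 (by simp)
      omega
    · intro a h
      exact h.2.2.2.1
  · refine key {0, 4, 5} (fun a => n ≤ a 0 + a 4 / 2 + a 5 / 2) (by simp [covers]) ?_ ?_ ?_ a ha
    · intro a b hab h
      have h0 := hab 0
      have h1 := hab 4
      have h2 := hab 5
      omega
    · intro a b hab h
      have h0 := hab 0 (by simp)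
      have h1 := hab 4 (by simp)
      have h2 := hab 5 (by simp)
      omega
    · intro a h
      exact h.2.2.2.2.1
  · refine key {0, 1, 2} (fun a => n ≤ a 1 + a 2 + a 0 / 2) (by simp [covers]) ?_ ?_ ?_ a ha
    · intro a b hab h
      have h0 := hab 0
      have h1 := hab 1
      have h2 := hab 2
      omega
    · intro a b hab h
      have h0 := hab 0 (by simp)
      have h1 := hab 1 (by simp)
      have h2 := hab 2 (by simp)
      omega
    · intro a h
      exact h.2.2.2.2.2.1
  · refine key {3, 1, 2} (fun a => n ≤ a 1 + a 2 + a 3 / 2) (by simp [covers]) ?_ ?_ ?_ a ha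
    · intro a b hab h
      have h0 := hab 3
      have h1 := hab 1
      have h2 := hab 2
      omega
    · intro a b hab h
      have h0 := hab 3 (by simp)
      have h1 := hab 1 (by simp)
      have h2 := hab 2 (by simp)
      omega
    · intro a h
      exact h.2.2.2.2.2.2

theorem exists_cover_le {n : ℕ} {p : Ideal (MvPolynomial (Fin 6) K)} [hp : p.IsPrime]
    (h : I0 K ^ n ≤ p) : ∃ T ∈ covers, PT K T ≤ p := by
  have hI : I0 K ≤ p := by
    intro x hx
    exact hp.mem_of_pow_mem n (h (Ideal.pow_mem_pow hx n))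
  have g1 : (X 0 * X 1 : MvPolynomial (Fin 6) K) ∈ p := hI (Ideal.subset_span (by simp))
  have g2 : (X 0 * X 2 : MvPolynomial (Fin 6) K) ∈ p := hI (Ideal.subset_span (by simp))
  have g3 : ((X 1 * X 4) ^ 2 : MvPolynomial (Fin 6) K) ∈ p := hI (Ideal.subset_span (by simp))
  have g4 : ((X 2 * X 5) ^ 2 : MvPolynomial (Fin 6) K) ∈ p := hI (Ideal.subset_span (by simp))
  have g5 : ((X 0 * X 3) ^ 2 : MvPolynomial (Fin 6) K) ∈ p := hI (Ideal.subset_span (by simp))
  replace g3 := hp.mem_of_pow_mem 2 g3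
  replace g4 := hp.mem_of_pow_mem 2 g4
  replace g5 := hp.mem_of_pow_mem 2 g5
  by_cases h0 : (X 0 : MvPolynomial (Fin 6) K) ∈ p
  · rcases hp.mem_or_mem g3 with h1 | h1 <;> rcases hp.mem_or_mem g4 with h2 | h2
    · refine ⟨{0, 1, 2}, by simp [covers], ?_⟩
      rw [PT_le_iff]
      simp [h0, h1, h2]
    · refine ⟨{0, 1, 5}, by simp [covers], ?_⟩
      rw [PT_le_iff]
      simp [h0, h1, h2]
    · refine ⟨{0, 4, 2}, by simp [covers], ?_⟩
      rw [PT_le_iff]
      simp [h0, h1, h2]
    · refine ⟨{0, 4, 5}, by simp [covers], ?_⟩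
      rw [PT_le_iff]
      simp [h0, h1, h2]
  · have h1 := (hp.mem_or_mem g1).resolve_left h0
    have h2 := (hp.mem_or_mem g2).resolve_left h0
    have h3 := (hp.mem_or_mem g5).resolve_left h0
    refine ⟨{3, 1, 2}, by simp [covers], ?_⟩
    rw [PT_le_iff]
    simp [h3, h1, h2]

theorem height_of_associated {n : ℕ} {p : Ideal (MvPolynomial (Fin 6) K)}
    (hp : p ∈ associatedPrimes (MvPolynomial (Fin 6) K) (MvPolynomial (Fin 6) K ⧸ I0 K ^ n)) :
    p.height = (PT K {0, 1, 2}).height := by
  have hp' : IsAssociatedPrime p (MvPolynomial (Fin 6) K ⧸ I0 K ^ n) := hp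
  rw [isAssociatedPrime_iff] at hp'
  obtain ⟨hpp, x, hx⟩ := hp'
  obtain ⟨f, rfl⟩ := Ideal.Quotient.mk_surjective x
  have hmem : ∀ g, g ∈ p ↔ g * f ∈ I0 K ^ n := by
    intro g
    rw [hx, Submodule.mem_colon_singleton, Submodule.mem_bot]
    rw [← Ideal.Quotient.eq_zero_iff_mem]
    rfl
  have hf : f ∉ I0 K ^ n := by
    intro hf
    apply hpp.ne_top
    rw [Ideal.eq_top_iff_one, hmem, one_mul]
    exact hf
  have hle : I0 K ^ n ≤ p := by
    intro g hg
    rw [hmem]
    exact Ideal.mul_mem_right _ _ hg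
  obtain ⟨T, hT, hTp⟩ := exists_cover_le hle
  obtain ⟨T', hT', hp'⟩ := exists_cover_of_not_cond hf
  apply le_antisymm
  · rw [← PT_height_covers T' hT']
    exact Ideal.height_mono fun g hg => hp' g ((hmem g).mp hg)
  · rw [← PT_height_covers T hT]
    exact Ideal.height_mono hTp

theorem unmixed_I0_pow (n : ℕ) : IsUnmixed (I0 K ^ n) := by
  intro p hp q hq
  rw [height_of_associated hp, height_of_associated hq]

end Pool.Agent.MP_23c7c4_al
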