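import Mathlib
import Pool.Agent.MP_23c7c4_al.Unmixed

/-!
The powers `I0 ^ n`, `n ≥ 4`, are not Cohen-Macaulay.
-/

namespace Pool.Agent.MP_23c7c4_al

open MvPolynomial

open scoped Pointwise

universe u

section abstract

variable {A : Type u} [CommRing A]

theorem regular_pow_left {t1 : A} (h1 : ∀ c, t1 * c = 0 → c = 0) (N : ℕ) :
    ∀ c, t1 ^ N * c = 0 → c = 0 := by
  induction N with
  | zero => intro c hc; simpa using hc
  | succ N ih =>
    intro c hc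
    apply ih
    apply h1
    rw [← hc]
    ring

theorem regular_pow_right {t1 t2 : A} (h2 : ∀ c, t1 ∣ t2 * c → t1 ∣ c) (N : ℕ) :
    ∀ c, t1 ∣ t2 ^ N * c → t1 ∣ c := by
  induction N with
  | zero => intro c hc; simpa using hc
  | succ N ih =>
    intro c hc
    apply ih
    apply h2
    have : t2 * (t2 ^ N * c) = t2 ^ (N + 1) * c := by ring
    rw [this]
    exact hc

theorem regular_pow_pow {t1 t2 : A} (h1 : ∀ c, t1 * c = 0 → c = 0)
    (h2 : ∀ c, t1 ∣ t2 * c → t1 ∣ c) (N M : ℕ) :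
    ∀ c, t1 ^ N ∣ t2 ^ M * c → t1 ^ N ∣ c := by
  induction N with
  | zero => intro c _; simp
  | succ N ih =>
    intro c hc
    obtain ⟨d, hd⟩ := ih c ((pow_dvd_pow t1 (Nat.le_succ N)).trans hc)
    obtain ⟨e, he⟩ := hc
    have h3 : t1 ^ N * (t2 ^ M * d - t1 * e) = 0 := by
      have : t2 ^ M * c = t2 ^ M * (t1 ^ N * d) := by rw [hd]
      rw [he] at this
      have h4 : t1 ^ N * (t2 ^ M * d - t1 * e) = t2 ^ M * (t1 ^ N * d) - t1 ^ (N + 1) * e := by ring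
      rw [h4, ← this, sub_self]
    have h5 := regular_pow_left h1 N _ h3
    have h6 : t1 ∣ t2 ^ M * d := ⟨e, by linear_combination h5⟩
    obtain ⟨d', hd'⟩ := regular_pow_right h2 M d h6
    exact ⟨d', by rw [hd, hd']; ring⟩

theorem abstract_section {t1 t2 s : A} (h1 : ∀ c, t1 * c = 0 → c = 0)
    (h2 : ∀ c, t1 ∣ t2 * c → t1 ∣ c) {E E' : Ideal A}
    (hs : ∀ e ∈ E, ∀ e' ∈ E', e * e' * s = 0) {N1 N2 : ℕ}
    (ht1 : t1 ^ N1 ∈ E ⊔ E') (ht2 : t2 ^ N2 ∈ E ⊔ E') :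
    ∃ t : A, (∀ e ∈ E, e * (s - t) = 0) ∧ (∀ e' ∈ E', e' * t = 0) := by
  obtain ⟨e1, he1, e1', he1', h3⟩ := Submodule.mem_sup.mp ht1
  obtain ⟨e2, he2, e2', he2', h4⟩ := Submodule.mem_sup.mp ht2
  have h5 : t2 ^ N2 * (e1 * s) = t1 ^ N1 * (e2 * s) := by
    rw [← h3, ← h4]
    have h6 := hs e1 he1 e2' he2'
    have h7 := hs e2 he2 e1' he1'
    linear_combination h6 - h7
  obtain ⟨t, ht⟩ := regular_pow_pow h1 h2 N1 N2 (e1 * s) ⟨e2 * s, h5⟩
  refine ⟨t, ?_, ?_⟩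
  · intro e he
    apply regular_pow_left h1 N1
    have h6 := hs e he e1' he1'
    have h7 : t1 ^ N1 * (e * (s - t)) = e * (t1 ^ N1 * s) - e * (t1 ^ N1 * t) := by ring
    rw [h7, ← ht, ← h3]
    linear_combination h6
  · intro e' he'
    apply regular_pow_left h1 N1
    have h6 := hs e1 he1 e' he'
    have h7 : t1 ^ N1 * (e' * t) = e' * (t1 ^ N1 * t) := by ring
    rw [h7, ← ht]
    linear_combination h6

end abstract

variable {K : Type u} [Field K]

theorem I0_pow_le_PT {n : ℕ} (hn : 1 ≤ n) {T : Finset (Fin 6)} (hT : {0, 1, 2} ⊆ T) :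
    I0 K ^ n ≤ PT K T := by
  refine (Ideal.pow_le_self (by omega)).trans ?_
  unfold I0
  rw [Ideal.span_le]
  have h0 : (X 0 : MvPolynomial (Fin 6) K) ∈ PT K T := X_mem_PT (hT (by simp))
  have h1 : (X 1 : MvPolynomial (Fin 6) K) ∈ PT K T := X_mem_PT (hT (by simp))
  have h2 : (X 2 : MvPolynomial (Fin 6) K) ∈ PT K T := X_mem_PT (hT (by simp))
  rintro f (rfl | rfl | rfl | rfl | rfl)
  · exact Ideal.mul_mem_right _ _ h0
  · exact Ideal.mul_mem_right _ _ h0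
  · exact Ideal.pow_mem_of_mem _ (Ideal.mul_mem_right _ _ h0) 2 (by norm_num)
  · exact Ideal.pow_mem_of_mem _ (Ideal.mul_mem_right _ _ h1) 2 (by norm_num)
  · exact Ideal.pow_mem_of_mem _ (Ideal.mul_mem_right _ _ h2) 2 (by norm_num)

theorem map_PT_isPrime {n : ℕ} (hn : 1 ≤ n) {T : Finset (Fin 6)} (hT : {0, 1, 2} ⊆ T) :
    ((PT K T).map (Ideal.Quotient.mk (I0 K ^ n))).IsPrime := by
  apply Ideal.map_isPrime_of_surjective Ideal.Quotient.mk_surjective
  rw [Ideal.mk_ker]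
  exact I0_pow_le_PT hn hT

theorem mk_mem_map_PT {n : ℕ} (hn : 1 ≤ n) {T : Finset (Fin 6)} (hT : {0, 1, 2} ⊆ T)
    (f : MvPolynomial (Fin 6) K) :
    Ideal.Quotient.mk (I0 K ^ n) f ∈ (PT K T).map (Ideal.Quotient.mk (I0 K ^ n)) ↔ f ∈ PT K T := by
  constructor
  · intro h
    have := Ideal.mem_quotient_iff_mem (I0_pow_le_PT (K := K) hn hT) (x := f)
    exact this.mp h
  · exact fun h => Ideal.mem_map_of_mem _ h

theorem map_PT_lt {n : ℕ} (hn : 1 ≤ n) {T T' : Finset (Fin 6)} (hT : {0, 1, 2} ⊆ T)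
    (hTT' : T ⊆ T') (i : Fin 6) (hi : i ∈ T') (hi' : i ∉ T) :
    (PT K T).map (Ideal.Quotient.mk (I0 K ^ n)) < (PT K T').map (Ideal.Quotient.mk (I0 K ^ n)) := by
  refine lt_of_le_of_ne (Ideal.map_mono (PT_le_iff.mpr fun j hj => X_mem_PT (hTT' hj))) ?_
  intro heq
  have h1 : Ideal.Quotient.mk (I0 K ^ n) (X i) ∈
      (PT K T').map (Ideal.Quotient.mk (I0 K ^ n)) := Ideal.mem_map_of_mem _ (X_mem_PT hi)
  rw [← heq, mk_mem_map_PT hn hT, mem_PT] at h1
  obtain ⟨j, hj, hj'⟩ := h1 (Finsupp.single i 1) (by rw [mem_support_iff]; simp [X, coeff_monomial])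
  rw [Finsupp.single_apply] at hj'
  split_ifs at hj' with h
  · rw [h] at hi'
    exact hi' hj
  · exact hj' rfl

theorem two_le_height {n : ℕ} (hn : 1 ≤ n) :
    2 ≤ ((PT K {0, 1, 2, 4, 5}).map (Ideal.Quotient.mk (I0 K ^ n))).height := by
  have p0 : ((PT K {0, 1, 2}).map (Ideal.Quotient.mk (I0 K ^ n))).IsPrime :=
    map_PT_isPrime hn (by decide)
  have p1 : ((PT K {0, 1, 2, 4}).map (Ideal.Quotient.mk (I0 K ^ n))).IsPrime :=
    map_PT_isPrime hn (by decide)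
  have p2 : ((PT K {0, 1, 2, 4, 5}).map (Ideal.Quotient.mk (I0 K ^ n))).IsPrime :=
    map_PT_isPrime hn (by decide)
  have h1 := Ideal.height_add_one_le_of_lt_of_isPrime
    (map_PT_lt (K := K) hn (T := {0, 1, 2}) (T' := {0, 1, 2, 4}) (by decide) (by decide) 4
      (by decide) (by decide))
  have h2 := Ideal.height_add_one_le_of_lt_of_isPrime
    (map_PT_lt (K := K) hn (T := {0, 1, 2, 4}) (T' := {0, 1, 2, 4, 5}) (by decide) (by decide) 5
      (by decide) (by decide))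
  refine le_trans ?_ h2
  have h3 : (2 : ℕ∞) = 0 + 1 + 1 := by norm_num
  rw [h3]
  gcongr
  refine le_trans ?_ h1
  gcongr
  exact zero_le

/-- exponent vector of the element `X₀ ^ (n-1) X₁² X₂²` -/
noncomputable def s0 (n : ℕ) : Fin 6 →₀ ℕ :=
  Finsupp.single 0 (n - 1) + Finsupp.single 1 2 + Finsupp.single 2 2

theorem mul_mul_mem {n k : ℕ} (hn : 1 ≤ n) (hk : n ≤ k) (hk2 : 2 ≤ k) (i j : Fin 6)
    (hi : i = 1 ∨ i = 2) (hj : j = 4 ∨ j = 5) :
    (X i ^ k * X j ^ k * monomial (s0 n) 1 : MvPolynomial (Fin 6) K) ∈ I0 K ^ n := by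
  rw [mem_I0_pow]
  intro a ha
  rw [X_pow_eq_monomial, X_pow_eq_monomial, monomial_mul, monomial_mul] at ha
  have := MvPolynomial.support_monomial_subset ha
  rw [Finset.mem_singleton] at this
  subst this
  unfold cond s0
  rcases hi with rfl | rfl <;> rcases hj with rfl | rfl <;>
    simp [Finsupp.single_apply] <;> omega

theorem X0_pow_mul_mem (n : ℕ) :
    (X 0 ^ (2 * n) * X 3 ^ (2 * n) : MvPolynomial (Fin 6) K) ∈ I0 K ^ n := by
  have : (X 0 ^ (2 * n) * X 3 ^ (2 * n) : MvPolynomial (Fin 6) K) = ((X 0 * X 3) ^ 2) ^ n := by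
    rw [← pow_mul, mul_pow]
  rw [this]
  exact Ideal.pow_mem_pow (Ideal.subset_span (by simp)) n

theorem final_contra {n : ℕ} (hn : 4 ≤ n) {k : ℕ} {G ρ : MvPolynomial (Fin 6) K}
    (hG : G ∉ PT K {0, 1, 2, 4, 5}) (h1 : X 4 ^ k * ρ ∈ I0 K ^ n)
    (h2 : X 1 ^ k * (monomial (s0 n) 1 * G - ρ) ∈ I0 K ^ n) : False := by
  rw [not_mem_PT] at hG
  obtain ⟨b, hb, hb0⟩ := hG
  have b0 := hb0 0 (by simp)
  have b1 := hb0 1 (by simp)
  have b2 := hb0 2 (by simp)
  have b4 := hb0 4 (by simp)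
  have b5 := hb0 5 (by simp)
  rw [mem_I0_pow] at h1 h2
  rw [mem_support_iff] at hb
  by_cases hρ : coeff (s0 n + b) ρ = 0
  · have h3 := h2 (Finsupp.single 1 k + (s0 n + b)) (by
      rw [mem_support_iff, X_pow_eq_monomial, coeff_monomial_mul, one_mul, coeff_sub, hρ,
        coeff_monomial_mul, one_mul, sub_zero]
      exact hb)
    obtain ⟨-, -, -, -, h3, -⟩ := h3
    unfold s0 at h3
    simp [Finsupp.single_apply, b0, b1, b2, b4, b5] at h3
    omega
  · have h3 := h1 (Finsupp.single 4 k + (s0 n + b)) (by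
      rw [mem_support_iff, X_pow_eq_monomial, coeff_monomial_mul, one_mul]
      exact hρ)
    obtain ⟨h3, -⟩ := h3
    unfold s0 at h3
    simp [Finsupp.single_apply, b0, b1, b2, b4, b5] at h3
    omega

theorem not_cm_aux {n : ℕ} (hn : 4 ≤ n) (p : Ideal (MvPolynomial (Fin 6) K ⧸ I0 K ^ n))
    [hpp : p.IsPrime] (hp : p = (PT K {0, 1, 2, 4, 5}).map (Ideal.Quotient.mk (I0 K ^ n)))
    (A : Type u) [CommRing A] [IsLocalRing A] [Algebra (MvPolynomial (Fin 6) K ⧸ I0 K ^ n) A]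
    [IsLocalization.AtPrime A p] (hcm : IsCMLocalRing A) : False := by
  have hn1 : 1 ≤ n := by omega
  set π := Ideal.Quotient.mk (I0 K ^ n) with hπ
  have hTT : ({0, 1, 2} : Finset (Fin 6)) ⊆ {0, 1, 2, 4, 5} := by decide
  obtain ⟨rs, hreg, hmem, hdim⟩ := hcm
  have hlen : 2 ≤ rs.length := by
    have h1 := IsLocalization.AtPrime.ringKrullDim_eq_height p A
    rw [hdim] at h1
    have h2 : p.height = (rs.length : ℕ∞) := by exact_mod_cast h1.symm
    have h3 := two_le_height (K := K) hn1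
    rw [← hπ, ← hp, h2] at h3
    exact_mod_cast h3
  obtain ⟨t1, t2, rs', rfl⟩ : ∃ t1 t2 rs', rs = t1 :: t2 :: rs' := by
    match rs, hlen with
    | [], h => simp at h
    | [_], h => simp at h
    | t1 :: t2 :: rs', _ => exact ⟨t1, t2, rs', rfl⟩
  have hw := hreg.toIsWeaklyRegular
  rw [RingTheory.Sequence.isWeaklyRegular_cons_iff,
    RingTheory.Sequence.isWeaklyRegular_cons_iff] at hw
  obtain ⟨hr1, hr2, -⟩ := hw
  have hreg1 : ∀ c, t1 * c = 0 → c = 0 := fun c hc => 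
    (isSMulRegular_iff_right_eq_zero_of_smul.mp hr1) c hc
  have hreg2 : ∀ c, t1 ∣ t2 * c → t1 ∣ c := by
    intro c hc
    have h1 := (isSMulRegular_quotient_iff_mem_of_smul_mem _ _).mp hr2 c
    rw [smul_eq_mul] at h1
    have h2 : ∀ x : A, x ∈ (t1 • (⊤ : Submodule A A)) ↔ t1 ∣ x := by
      intro x
      rw [Submodule.mem_smul_pointwise_iff_exists]
      constructor
      · rintro ⟨y, -, rfl⟩
        exact ⟨y, rfl⟩
      · rintro ⟨y, rfl⟩
        exact ⟨y, trivial, rfl⟩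
    rw [h2, h2] at h1
    exact h1 hc
  -- the map from the polynomial ring
  obtain ⟨φ, hφ⟩ : ∃ φ : MvPolynomial (Fin 6) K →+* A,
    φ = (algebraMap (MvPolynomial (Fin 6) K ⧸ I0 K ^ n) A).comp π := ⟨_, rfl⟩
  have hφ0 : ∀ r, φ r = 0 → ∃ g, g ∉ PT K {0, 1, 2, 4, 5} ∧ g * r ∈ I0 K ^ n := by
    intro r hr
    have h1 : algebraMap (MvPolynomial (Fin 6) K ⧸ I0 K ^ n) A (π r) = 0 := by
      rw [hφ] at hr
      exact hr
    rw [IsLocalization.map_eq_zero_iff p.primeCompl A] at h1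
    obtain ⟨⟨m, hm⟩, h1⟩ := h1
    obtain ⟨g, rfl⟩ := Ideal.Quotient.mk_surjective m
    refine ⟨g, ?_, ?_⟩
    · intro hg
      apply hm
      rw [hp]
      exact (mk_mem_map_PT hn1 hTT g).mpr hg
    · rw [← Ideal.Quotient.eq_zero_iff_mem, map_mul]
      exact h1
  have hφI : ∀ r ∈ I0 K ^ n, φ r = 0 := by
    intro r hr
    have : π r = 0 := Ideal.Quotient.eq_zero_iff_mem.mpr hr
    rw [hφ, RingHom.comp_apply, this, map_zero]
  have hφunit : ∀ g, g ∉ PT K {0, 1, 2, 4, 5} → IsUnit (φ g) := by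
    intro g hg
    rw [hφ]
    refine IsLocalization.map_units A (⟨π g, ?_⟩ : p.primeCompl)
    intro h
    apply hg
    change π g ∈ p at h
    rw [hp] at h
    exact (mk_mem_map_PT hn1 hTT g).mp h
  have hsurj : ∀ a : A, ∃ r u, u ∉ PT K {0, 1, 2, 4, 5} ∧ a * φ u = φ r := by
    intro a
    obtain ⟨⟨x, ⟨y, hy⟩⟩, hxy⟩ := IsLocalization.surj p.primeCompl a
    obtain ⟨r, rfl⟩ := Ideal.Quotient.mk_surjective x
    obtain ⟨u, rfl⟩ := Ideal.Quotient.mk_surjective y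
    refine ⟨r, u, fun h => hy ?_, ?_⟩
    · rw [hp]
      exact (mk_mem_map_PT hn1 hTT u).mpr h
    · rw [hφ]
      exact hxy
  set E : Ideal A := Ideal.span {φ (X 1) ^ n, φ (X 2) ^ n} with hE
  set E' : Ideal A := Ideal.span {φ (X 4) ^ n, φ (X 5) ^ n} with hE'
  set s : A := φ (monomial (s0 n) 1) with hs
  have hEE : ∀ e ∈ E, ∀ e' ∈ E', e * e' * s = 0 := by
    intro e he e' he'
    rw [hE, Ideal.mem_span_pair] at he
    rw [hE', Ideal.mem_span_pair] at he'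
    obtain ⟨a, b, rfl⟩ := he
    obtain ⟨c, d, rfl⟩ := he'
    have h14 := hφI _ (mul_mul_mem (K := K) hn1 le_rfl (by omega) 1 4 (by simp) (by simp))
    have h15 := hφI _ (mul_mul_mem (K := K) hn1 le_rfl (by omega) 1 5 (by simp) (by simp))
    have h24 := hφI _ (mul_mul_mem (K := K) hn1 le_rfl (by omega) 2 4 (by simp) (by simp))
    have h25 := hφI _ (mul_mul_mem (K := K) hn1 le_rfl (by omega) 2 5 (by simp) (by simp))
    rw [map_mul, map_mul, map_pow, map_pow, ← hs] at h14 h15 h24 h25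
    linear_combination (a * c) * h14 + (a * d) * h15 + (b * c) * h24 + (b * d) * h25
  have hrad : IsLocalRing.maximalIdeal A ≤ (E ⊔ E').radical := by
    have hmax : IsLocalRing.maximalIdeal A = (PT K {0, 1, 2, 4, 5}).map φ := by
      rw [← IsLocalization.AtPrime.map_eq_maximalIdeal p A, hφ, ← Ideal.map_map, ← hp]
    rw [hmax, Ideal.map_le_iff_le_comap, PT_le_iff]
    intro i hi
    rw [Ideal.mem_comap]
    simp only [Finset.mem_insert, Finset.mem_singleton] at hi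
    rcases hi with rfl | rfl | rfl | rfl | rfl
    · refine ⟨2 * n, ?_⟩
      have h1 := hφI _ (X0_pow_mul_mem (K := K) n)
      rw [map_mul, map_pow, map_pow] at h1
      have h3 : (X 3 : MvPolynomial (Fin 6) K) ∉ PT K {0, 1, 2, 4, 5} := by
        rw [not_mem_PT]
        refine ⟨Finsupp.single 3 1, by rw [mem_support_iff]; simp [X, coeff_monomial], ?_⟩
        intro i hi
        rw [Finsupp.single_apply, if_neg]
        rintro rfl
        revert hi
        decide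
      have h2 := (hφunit (X 3) h3).pow (2 * n)
      rw [h2.mul_left_eq_zero] at h1
      rw [h1]
      exact Ideal.zero_mem _
    · exact ⟨n, Ideal.mem_sup_left (Ideal.subset_span (by simp))⟩
    · exact ⟨n, Ideal.mem_sup_left (Ideal.subset_span (by simp))⟩
    · exact ⟨n, Ideal.mem_sup_right (Ideal.subset_span (by simp))⟩
    · exact ⟨n, Ideal.mem_sup_right (Ideal.subset_span (by simp))⟩
  obtain ⟨N1, hN1⟩ := hrad (hmem t1 (by simp))
  obtain ⟨N2, hN2⟩ := hrad (hmem t2 (by simp))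
  obtain ⟨t, ht1, ht2⟩ := abstract_section hreg1 hreg2 hEE hN1 hN2
  have ht1' := ht1 (φ (X 1) ^ n) (Ideal.subset_span (by simp))
  have ht2' := ht2 (φ (X 4) ^ n) (Ideal.subset_span (by simp))
  obtain ⟨r, u, hu, hru⟩ := hsurj t
  have e1 : φ (X 4 ^ n * r) = 0 := by
    rw [map_mul, map_pow, ← hru, ← mul_assoc, ht2', zero_mul]
  have e2 : φ (X 1 ^ n * (monomial (s0 n) 1 * u - r)) = 0 := by
    rw [map_mul, map_pow, map_sub, map_mul, ← hru, ← hs, ← sub_mul, ← mul_assoc, ht1', zero_mul]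
  obtain ⟨g1, hg1, e1'⟩ := hφ0 _ e1
  obtain ⟨g2, hg2, e2'⟩ := hφ0 _ e2
  refine final_contra (K := K) hn (k := n) (G := g1 * g2 * u) (ρ := g1 * g2 * r) ?_ ?_ ?_
  · intro h
    rcases (PT_isPrime _).mem_or_mem h with h | h
    · rcases (PT_isPrime _).mem_or_mem h with h | h
      · exact hg1 h
      · exact hg2 h
    · exact hu h
  · have : X 4 ^ n * (g1 * g2 * r) = g2 * (g1 * (X 4 ^ n * r)) := by ring
    rw [this]
    exact Ideal.mul_mem_left _ _ e1'
  · have : X 1 ^ n * (monomial (s0 n) 1 * (g1 * g2 * u) - g1 * g2 * r) =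
      g1 * (g2 * (X 1 ^ n * (monomial (s0 n) 1 * u - r))) := by ring
    rw [this]
    exact Ideal.mul_mem_left _ _ e2'

theorem not_cm {n : ℕ} (hn : 4 ≤ n) : ¬ IsCMIdeal (I0 K ^ n) := by
  rintro ⟨-, hcm⟩
  have hpp : ((PT K {0, 1, 2, 4, 5}).map (Ideal.Quotient.mk (I0 K ^ n))).IsPrime :=
    map_PT_isPrime (by omega) (by decide)
  exact not_cm_aux (K := K) hn _ rfl _
    (hcm ((PT K {0, 1, 2, 4, 5}).map (Ideal.Quotient.mk (I0 K ^ n))))

end Pool.Agent.MP_23c7c4_al
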